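import Pool.Agent.H4.SX.Defs

/-!
# Row SlXa (about 80 lines): a product inequality

PROOF. `m = T.card`, `k ≥ 2`, `m ≤ ∑ b ≤ k`. Put `x i = b i / k ∈ (0, 1)`.
Case 1: `2 b i ≤ k` for all `i ∈ T`. For `0 ≤ x ≤ 1/2`: `exp (-2x) ≤ 1/(1+2x) ≤ 1 - x` (`(1-x)(1+2x) = 1 + x - 2x² ≥ 1`; `1 + 2x ≤ exp (2x)`), so
`∏ (1 - x i) ≥ ∏ exp (-2 x i) = exp (-2 ∑ x i) ≥ exp (-2) ≥ 1/8` (`∑ x i ≤ 1`; `exp 1 < 2.7182818286` (`Real.exp_one_lt_d9`), so `exp 2 = exp 1 ^ 2 < 8`),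
and `m/(8k) ≤ 1/8`.
Case 2: some `a ∈ T` has `2 b a > k`. Then `∑_(i ∈ T.erase a) b i ≤ k - b a < k/2`, so by the Weierstrass inequality
`∏_(i ∈ T.erase a) (1 - x i) ≥ 1 - ∑_(i ∈ T.erase a) x i ≥ 1/2` (Mathlib: `Finset.one_sub_sum_le_prod_one_sub` or similar; else a short
Finset induction). `k - b a ≥ ∑_(T.erase a) b ≥ m - 1` and `k - b a ≥ 1`, so `1 - x a = (k - b a)/k ≥ m/(2k)` (`max (1, m - 1) ≥ m/2`). Product `≥ m/(4k) ≥ m/(8k)`.
-/

set_option autoImplicit false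

namespace H4.SX

lemma A_exp {x : ℝ} (h0 : 0 ≤ x) (h1 : 2 * x ≤ 1) : Real.exp (-2 * x) ≤ 1 - x := by
  have h2 : 1 + 2 * x ≤ Real.exp (2 * x) := by
    have := Real.add_one_le_exp (2 * x)
    linarith
  have h3 : Real.exp (-2 * x) * Real.exp (2 * x) = 1 := by
    rw [← Real.exp_add]
    simp
  have h4 : 0 < Real.exp (-2 * x) := Real.exp_pos _
  have h5 : Real.exp (-2 * x) * (1 + 2 * x) ≤ 1 := by
    calc Real.exp (-2 * x) * (1 + 2 * x) ≤ Real.exp (-2 * x) * Real.exp (2 * x) :=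
          mul_le_mul_of_nonneg_left h2 h4.le
      _ = 1 := h3
  have h6 : 1 ≤ (1 - x) * (1 + 2 * x) := by nlinarith
  have h7 : 0 < 1 + 2 * x := by linarith
  exact le_of_mul_le_mul_right (h5.trans h6) h7

lemma A_weier {ι : Type} [DecidableEq ι] (T : Finset ι) (x : ι → ℝ) (h0 : ∀ i ∈ T, 0 ≤ x i)
    (h1 : ∀ i ∈ T, x i ≤ 1) : 1 - ∑ i ∈ T, x i ≤ ∏ i ∈ T, (1 - x i) ∧
      0 ≤ ∏ i ∈ T, (1 - x i) ∧ ∏ i ∈ T, (1 - x i) ≤ 1 := by
  induction T using Finset.induction_on with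
  | empty => simp
  | insert a T ha ih =>
    obtain ⟨i1, i2, i3⟩ := ih (fun i hi => h0 i (Finset.mem_insert_of_mem hi))
      (fun i hi => h1 i (Finset.mem_insert_of_mem hi))
    have j0 := h0 a (Finset.mem_insert_self _ _)
    have j1 := h1 a (Finset.mem_insert_self _ _)
    rw [Finset.sum_insert ha, Finset.prod_insert ha]
    refine ⟨?_, mul_nonneg (by linarith) i2, ?_⟩
    · nlinarith
    · nlinarith

theorem prod_ge {ι : Type} [DecidableEq ι] (T : Finset ι) (b : ι → ℕ) {k : ℕ} (h1 : ∀ i ∈ T, 1 ≤ b i)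
    (h2 : ∀ i ∈ T, b i + 1 ≤ k) (h3 : ∑ i ∈ T, b i ≤ k) (hT : T.Nonempty) :
    (T.card : ℝ) / (8 * k) ≤ ∏ i ∈ T, (1 - (b i : ℝ) / k) := by
  obtain ⟨i0, hi0⟩ := hT
  have hk2 : 2 ≤ k := by
    have := h1 i0 hi0
    have := h2 i0 hi0
    omega
  have hk : (0 : ℝ) < k := by exact_mod_cast (by omega : 0 < k)
  have hm : T.card ≤ ∑ i ∈ T, b i := by
    have := Finset.card_nsmul_le_sum T b 1 h1
    simpa using this
  have hmk : (T.card : ℝ) ≤ k := by exact_mod_cast hm.trans h3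
  have h3' : ∑ i ∈ T, (b i : ℝ) ≤ k := by exact_mod_cast h3
  have hx0 : ∀ i, 0 ≤ (b i : ℝ) / k := fun i => by positivity
  have hx1 : ∀ i ∈ T, (b i : ℝ) / k ≤ 1 := fun i hi => by
    rw [div_le_one hk]
    have := h2 i hi
    exact_mod_cast (by omega : b i ≤ k)
  by_cases hc : ∀ i ∈ T, 2 * b i ≤ k
  · have e1 : ∏ i ∈ T, Real.exp (-2 * ((b i : ℝ) / k)) ≤ ∏ i ∈ T, (1 - (b i : ℝ) / k) := by
      refine Finset.prod_le_prod (fun i _ => (Real.exp_pos _).le) (fun i hi => ?_)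
      refine A_exp (hx0 i) ?_
      rw [← mul_div_assoc, div_le_one hk]
      exact_mod_cast hc i hi
    rw [← Real.exp_sum, ← Finset.mul_sum, ← Finset.sum_div] at e1
    have e2 : (∑ i ∈ T, (b i : ℝ)) / k ≤ 1 := by
      rw [div_le_one hk]
      exact h3'
    have e3 : Real.exp (-2) ≤ Real.exp (-2 * ((∑ i ∈ T, (b i : ℝ)) / k)) :=
      Real.exp_le_exp.2 (by linarith)
    have e4 : (1 : ℝ) / 8 ≤ Real.exp (-2) := by
      rw [Real.exp_neg, ← one_div]
      refine one_div_le_one_div_of_le (Real.exp_pos _) ?_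
      have e5 : Real.exp 2 = Real.exp 1 * Real.exp 1 := by
        rw [← Real.exp_add]
        norm_num
      have e6 := Real.exp_one_lt_d9
      have e7 := Real.exp_pos 1
      rw [e5]
      nlinarith
    have e8 : (T.card : ℝ) / (8 * k) ≤ 1 / 8 := by
      rw [div_le_div_iff₀ (by positivity) (by norm_num)]
      linarith
    linarith
  · push Not at hc
    obtain ⟨a, ha, hab⟩ := hc
    rw [← Finset.mul_prod_erase T _ ha]
    have hs : b a + ∑ i ∈ T.erase a, b i ≤ k := by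
      rw [Finset.add_sum_erase T b ha]
      exact h3
    have hs' : (b a : ℝ) + ∑ i ∈ T.erase a, (b i : ℝ) ≤ k := by exact_mod_cast hs
    have hab' : (k : ℝ) < 2 * b a := by exact_mod_cast hab
    obtain ⟨w1, w2, w3⟩ := A_weier (T.erase a) (fun i => (b i : ℝ) / k) (fun i _ => hx0 i)
      (fun i hi => hx1 i (Finset.mem_of_mem_erase hi))
    have w4 : ∑ i ∈ T.erase a, (b i : ℝ) / k ≤ 1 / 2 := by
      rw [← Finset.sum_div, div_le_div_iff₀ hk (by norm_num)]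
      linarith
    have w5 : (1 : ℝ) / 2 ≤ ∏ i ∈ T.erase a, (1 - (b i : ℝ) / k) := by linarith
    have hc1 : (T.erase a).card ≤ ∑ i ∈ T.erase a, b i := by
      have := Finset.card_nsmul_le_sum (T.erase a) b 1
        (fun i hi => h1 i (Finset.mem_of_mem_erase hi))
      simpa using this
    have hc2 : (T.erase a).card = T.card - 1 := Finset.card_erase_of_mem ha
    have hc3 : b a + 1 ≤ k := h2 a ha
    have hc4 : T.card + 2 * b a ≤ 2 * k := by omega
    have hc5 : (T.card : ℝ) + 2 * b a ≤ 2 * k := by exact_mod_cast hc4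
    have w6 : (T.card : ℝ) / (2 * k) ≤ 1 - (b a : ℝ) / k := by
      rw [le_sub_iff_add_le, div_add_div _ _ (by positivity) hk.ne', div_le_one (by positivity)]
      nlinarith
    have w7 : (T.card : ℝ) / (8 * k) ≤ (T.card : ℝ) / (2 * k) * (1 / 2) := by
      rw [div_mul_div_comm, mul_one]
      exact div_le_div_of_nonneg_left (by positivity) (by positivity) (by linarith)
    calc (T.card : ℝ) / (8 * k) ≤ (T.card : ℝ) / (2 * k) * (1 / 2) := w7
      _ ≤ (1 - (b a : ℝ) / k) * ∏ i ∈ T.erase a, (1 - (b i : ℝ) / k) :=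
        mul_le_mul w6 w5 (by norm_num) (le_trans (by positivity) w6)

end H4.SX
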