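import Pool.Agent.H4.SX.A

/-!
# Row SlXb (about 110 lines): the number of patterns which meet `S`

`S` a set of pairs `(τ, q)`; `T` = its coordinates. The patterns `p` equal to `j` outside `T` and with `p τ = q` for some `(τ, q) ∈ S`
are at most `k^|T| exp (-|T|/(8k))` many.
PROOF. `T = S.image Prod.fst`, `Sτ = {q : (τ, q) ∈ S}`, `b τ = |Sτ|`. For `τ ∈ T`: `1 ≤ b τ`, and `b τ + 1 ≤ k` by `hf`. `∑_(τ ∈ T) b τ = |S| ≤ k`
(`Finset.card_eq_sum_card_fiberwise` or `Finset.card_sigma`).
All patterns equal to `j` outside `T`: `Fintype.piFinset W`, `W τ = if τ ∈ T then univ else {j τ}`, card `= ∏ |W τ| = k^|T|`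
(`Fintype.card_piFinset`, `Finset.prod_ite`, or `Finset.prod_subset`). The ones which miss `S`: `Fintype.piFinset W'`,
`W' τ = if τ ∈ T then univ.filter (fun q => (τ, q) ∉ S) else {j τ}`, card `= ∏_(τ ∈ T) (k - b τ) = k^|T| ∏_(τ ∈ T) (1 - b τ/k) ≥ k^|T| |T|/(8k)` by
`prod_ge` (row A: statement only). The filter in the statement is contained in the difference, so its card is
`≤ k^|T| (1 - |T|/(8k)) ≤ k^|T| exp (-|T|/(8k))` (`Real.one_sub_le_exp_neg`).
-/

set_option autoImplicit false

namespace H4.SX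

open Classical in
theorem card_pat {N k : ℕ} (j : Fin N → Fin k) (S : Finset (Fin N × Fin k)) (hS : S.card ≤ k)
    (hS0 : S.Nonempty) (hf : ∀ τ, ∃ q, (τ, q) ∉ S) :
    ((Finset.univ.filter (fun p : Fin N → Fin k => (∀ τ, τ ∉ S.image Prod.fst → p τ = j τ) ∧
        ∃ u ∈ S, p u.1 = u.2)).card : ℝ) ≤
      (k : ℝ) ^ (S.image Prod.fst).card * Real.exp (-((S.image Prod.fst).card : ℝ) / (8 * k)) := by
  set T := S.image Prod.fst with hT
  have hk : 0 < k := by
    obtain ⟨u, -⟩ := hS0
    exact Fin.pos u.2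
  have hkR : (0 : ℝ) < k := by exact_mod_cast hk
  set b : Fin N → ℕ := fun τ => (Finset.univ.filter (fun q : Fin k => (τ, q) ∈ S)).card with hb
  let W : Fin N → Finset (Fin k) := fun τ => if τ ∈ T then Finset.univ else {j τ}
  let W' : Fin N → Finset (Fin k) := fun τ =>
    if τ ∈ T then Finset.univ.filter (fun q => (τ, q) ∉ S) else {j τ}
  have hb1 : ∀ τ ∈ T, 1 ≤ b τ := by
    intro τ hτ
    rw [hT, Finset.mem_image] at hτ
    obtain ⟨u, hu, rfl⟩ := hτ
    exact Finset.card_pos.2 ⟨u.2, Finset.mem_filter.2 ⟨Finset.mem_univ _, hu⟩⟩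
  have hb2 : ∀ τ, b τ + 1 ≤ k := by
    intro τ
    obtain ⟨q, hq⟩ := hf τ
    have h1 : (Finset.univ.filter (fun q : Fin k => (τ, q) ∈ S)) ⊂ Finset.univ := by
      refine ⟨Finset.subset_univ _, fun h => hq ?_⟩
      exact (Finset.mem_filter.1 (h (Finset.mem_univ q))).2
    have h2 := Finset.card_lt_card h1
    rw [Finset.card_univ, Fintype.card_fin] at h2
    exact h2
  have hb3 : ∑ τ ∈ T, b τ = S.card := by
    rw [Finset.card_eq_sum_card_image Prod.fst S]
    refine Finset.sum_congr rfl fun τ _ => ?_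
    refine Finset.card_bij (fun q _ => (τ, q)) ?_ ?_ ?_
    · intro q hq
      exact Finset.mem_filter.2 ⟨(Finset.mem_filter.1 hq).2, rfl⟩
    · intro q _ q' _ h
      exact (Prod.ext_iff.1 h).2
    · rintro ⟨τ', q⟩ h
      obtain ⟨h1, h2⟩ := Finset.mem_filter.1 h
      have h2' : τ' = τ := h2
      subst h2'
      exact ⟨q, Finset.mem_filter.2 ⟨Finset.mem_univ _, h1⟩, rfl⟩
  have hTne : T.Nonempty := hS0.image _
  have hcW : (Fintype.piFinset W).card = k ^ T.card := by
    rw [Fintype.card_piFinset]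
    have h1 : ∀ τ, (W τ).card = if τ ∈ T then k else 1 := by
      intro τ
      simp only [W]
      split_ifs
      · rw [Finset.card_univ, Fintype.card_fin]
      · rw [Finset.card_singleton]
    rw [Finset.prod_congr rfl (fun τ _ => h1 τ), Finset.prod_ite, Finset.prod_const_one, mul_one,
      Finset.prod_const, Finset.filter_mem_eq_inter, Finset.univ_inter]
  have hcW' : ((Fintype.piFinset W').card : ℝ) =
      (k : ℝ) ^ T.card * ∏ τ ∈ T, (1 - (b τ : ℝ) / k) := by
    rw [Fintype.card_piFinset]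
    have h1 : ∀ τ, ((W' τ).card : ℝ) = if τ ∈ T then (k : ℝ) * (1 - (b τ : ℝ) / k) else 1 := by
      intro τ
      simp only [W']
      split_ifs
      · have h2 := Finset.card_filter_add_card_filter_not (s := (Finset.univ : Finset (Fin k)))
          (fun q : Fin k => (τ, q) ∈ S)
        rw [Finset.card_univ, Fintype.card_fin] at h2
        have h3 : (b τ : ℝ) + ((Finset.univ.filter (fun q : Fin k => (τ, q) ∉ S)).card : ℝ) =
            k := by
          exact_mod_cast h2
        rw [mul_sub, mul_one, mul_div_cancel₀ _ hkR.ne']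
        linarith
      · rw [Finset.card_singleton, Nat.cast_one]
    push_cast
    rw [Finset.prod_congr rfl (fun τ _ => h1 τ), Finset.prod_ite, Finset.prod_const_one, mul_one,
      Finset.filter_mem_eq_inter, Finset.univ_inter, Finset.prod_mul_distrib, Finset.prod_const]
  have hsub : Fintype.piFinset W' ⊆ Fintype.piFinset W := by
    intro p hp
    rw [Fintype.mem_piFinset] at hp ⊢
    intro τ
    have h1 := hp τ
    simp only [W', W] at h1 ⊢
    split_ifs at h1 ⊢ with h
    · exact Finset.mem_univ _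
    · exact h1
  have hle : (Finset.univ.filter (fun p : Fin N → Fin k => (∀ τ, τ ∉ T → p τ = j τ) ∧
      ∃ u ∈ S, p u.1 = u.2)) ⊆ Fintype.piFinset W \ Fintype.piFinset W' := by
    intro p hp
    obtain ⟨-, h1, u, hu, h2⟩ := Finset.mem_filter.1 hp
    rw [Finset.mem_sdiff, Fintype.mem_piFinset, Fintype.mem_piFinset]
    constructor
    · intro τ
      simp only [W]
      split_ifs with h
      · exact Finset.mem_univ _
      · exact Finset.mem_singleton.2 (h1 τ h)
    · intro h
      have h3 := h u.1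
      have h4 : u.1 ∈ T := Finset.mem_image_of_mem _ hu
      simp only [W', if_pos h4] at h3
      apply (Finset.mem_filter.1 h3).2
      rw [h2]
      exact hu
  have hcard := Finset.card_le_card hle
  rw [Finset.card_sdiff_of_subset hsub] at hcard
  have hcc := Finset.card_le_card hsub
  have h5 : ((Finset.univ.filter (fun p : Fin N → Fin k => (∀ τ, τ ∉ T → p τ = j τ) ∧
      ∃ u ∈ S, p u.1 = u.2)).card : ℝ) ≤
      ((Fintype.piFinset W).card : ℝ) - ((Fintype.piFinset W').card : ℝ) := by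
    rw [← Nat.cast_sub hcc]
    exact_mod_cast hcard
  refine h5.trans ?_
  rw [hcW, hcW', Nat.cast_pow]
  have h6 := prod_ge T b hb1 (fun τ _ => hb2 τ) (by rw [hb3]; exact hS) hTne
  have h7 := Real.one_sub_le_exp_neg ((T.card : ℝ) / (8 * k))
  have h8 : -(T.card : ℝ) / (8 * k) = -((T.card : ℝ) / (8 * k)) := by ring
  rw [h8]
  have h9 : (0 : ℝ) < (k : ℝ) ^ T.card := pow_pos hkR _
  have h10 : (k : ℝ) ^ T.card - (k : ℝ) ^ T.card * ∏ τ ∈ T, (1 - (b τ : ℝ) / k) =
      (k : ℝ) ^ T.card * (1 - ∏ τ ∈ T, (1 - (b τ : ℝ) / k)) := by ring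
  rw [h10]
  apply mul_le_mul_of_nonneg_left _ h9.le
  linarith

end H4.SX
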