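import Pool.Agent.H4.SX.B

/-!
# Row SlXc (about 130 lines): sets in the cube with a clause for every subcube

PROOF. CLAIM: for all `d`, for all `D` disjoint from `H` with `|D| = d` and all `j : Fin N → Fin k`,
`|{j' ∈ A : ∀ τ ∉ D, j' τ = j τ}| ≤ k^d exp (-d/(8k))`. Strong induction on `d`. `d = 0`: at most one element (`D = ∅`).
`d > 0`: if the set `X` is empty, fine. Otherwise pick `j₀ ∈ X`, and `S` from `h D _ _ j₀ _`; `X` is also the set of the `j' ∈ A` equal to `j₀` outside `D`,
so all `j' ∈ X` meet `S` (`∃ u ∈ S, j' u.1 = u.2`); with `j' = j₀`: `S` is nonempty. `T = S.image Prod.fst ⊆ D`, `1 ≤ |T| ≤ |D|`.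
The map `π j' = fun τ => if τ ∈ T then j' τ else j₀ τ` sends `X` into the set of patterns of `card_pat j₀ S` (row B, statement only), and the fibre of a
pattern `p` is contained in `{j' ∈ A : ∀ τ ∉ D \ T, j' τ = p τ}` (for `τ ∈ T`: `j' τ = p τ`; for `τ ∉ D`: `j' τ = j₀ τ = p τ`), of card
`≤ k^(d - |T|) exp (-(d - |T|)/(8k))` by induction (`|D \ T| = d - |T|`, `Finset.card_sdiff`). So (`Finset.card_eq_sum_card_fiberwise` or
`Finset.card_le_mul_card_image`-like argument) `|X| ≤ k^|T| exp (-|T|/(8k)) * k^(d-|T|) exp (-(d-|T|)/(8k)) = k^d exp (-d/(8k))`.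
CONCLUSION: `D = Hᶜ`: `A` is mapped by `j' ↦ (fun τ => if τ ∈ H then j' τ else j₁ τ)` (`j₁` a fixed element of `A`; `A = ∅` is trivial) into the
patterns equal to `j₁` outside `H`, at most `k^|H|` many (inject into `H → Fin k`, or `Fintype.piFinset`); fibres as in the claim:
`|A| ≤ k^|H| k^(N-|H|) exp (-(N-|H|)/(8k))`.
-/

set_option autoImplicit false

namespace H4.SX

open Classical in
/-- The members of `A` equal to `j` outside `D`. -/
noncomputable def SXcX {N k : ℕ} (A : Finset (Fin N → Fin k)) (D : Finset (Fin N)) (j : Fin N → Fin k) :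
    Finset (Fin N → Fin k) := A.filter (fun j' => ∀ τ, τ ∉ D → j' τ = j τ)

theorem SXc_mem {N k : ℕ} (A : Finset (Fin N → Fin k)) (D : Finset (Fin N)) (j j' : Fin N → Fin k) :
    j' ∈ SXcX A D j ↔ j' ∈ A ∧ ∀ τ, τ ∉ D → j' τ = j τ := by
  unfold SXcX
  rw [Finset.mem_filter]

theorem SXc_fib {α β : Type*} [DecidableEq β] (X : Finset α) (P : Finset β) (f : α → β)
    (hf : ∀ a ∈ X, f a ∈ P) (c : ℝ) (hc : ∀ p ∈ P, ((X.filter (fun a => f a = p)).card : ℝ) ≤ c) :
    (X.card : ℝ) ≤ P.card * c := by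
  rw [Finset.card_eq_sum_card_fiberwise (f := f) (t := P) (fun a ha => hf a ha), Nat.cast_sum]
  calc ∑ p ∈ P, ((X.filter (fun a => f a = p)).card : ℝ) ≤ ∑ _p ∈ P, c := Finset.sum_le_sum hc
    _ = P.card * c := by rw [Finset.sum_const, nsmul_eq_mul]

theorem SXc_claim {N k : ℕ} (hk : 1 ≤ k) (A : Finset (Fin N → Fin k)) (H : Finset (Fin N))
    (h : ∀ D : Finset (Fin N), D.Nonempty → Disjoint D H → ∀ j ∈ A, ∃ S : Finset (Fin N × Fin k),
      S.card ≤ k ∧ (∀ u ∈ S, u.1 ∈ D) ∧ (∀ τ, ∃ q, (τ, q) ∉ S) ∧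
        ∀ j' ∈ A, (∀ τ, τ ∉ D → j' τ = j τ) → ∃ u ∈ S, j' u.1 = u.2) (d : ℕ) :
    ∀ D : Finset (Fin N), Disjoint D H → D.card = d → ∀ j : Fin N → Fin k,
      ((SXcX A D j).card : ℝ) ≤ (k : ℝ) ^ d * Real.exp (-(d : ℝ) / (8 * k)) := by
  classical
  have hk0 : (0 : ℝ) < k := by exact_mod_cast (show 0 < k by omega)
  induction d using Nat.strong_induction_on with
  | _ d ih =>
    intro D hD hcard j
    rcases Finset.eq_empty_or_nonempty (SXcX A D j) with he | ⟨j₀, hj₀⟩
    · rw [he, Finset.card_empty, Nat.cast_zero]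
      positivity
    · rw [SXc_mem] at hj₀
      obtain ⟨hj₀A, hj₀j⟩ := hj₀
      rcases Finset.eq_empty_or_nonempty D with hDe | hDn
      · have hd : d = 0 := by rw [← hcard, hDe, Finset.card_empty]
        have h1 : (SXcX A D j).card ≤ 1 := by
          rw [Finset.card_le_one]
          intro a ha b hb
          rw [SXc_mem] at ha hb
          funext τ
          have hτ : τ ∉ D := by rw [hDe]; exact Finset.notMem_empty τ
          rw [ha.2 τ hτ, hb.2 τ hτ]
        rw [hd, pow_zero, one_mul, Nat.cast_zero, neg_zero, zero_div, Real.exp_zero]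
        exact_mod_cast h1
      · obtain ⟨S, hS1, hS2, hS3, hS4⟩ := h D hDn hD j₀ hj₀A
        have hSn : S.Nonempty := by
          obtain ⟨u, hu, _⟩ := hS4 j₀ hj₀A (fun τ _ => rfl)
          exact ⟨u, hu⟩
        have hpat := card_pat j₀ S hS1 hSn hS3
        obtain ⟨T, hT⟩ : ∃ T, T = S.image Prod.fst := ⟨_, rfl⟩
        have hTD : T ⊆ D := by
          intro τ hτ
          rw [hT, Finset.mem_image] at hτ
          obtain ⟨u, hu, rfl⟩ := hτ
          exact hS2 u hu
        have hTn : 1 ≤ T.card := by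
          rw [hT]
          exact Finset.card_pos.2 (hSn.image _)
        have hTc : T.card ≤ D.card := Finset.card_le_card hTD
        have hmT : ∀ u ∈ S, u.1 ∈ T := fun u hu => by
          rw [hT]
          exact Finset.mem_image_of_mem _ hu
        rw [← hT] at hpat
        obtain ⟨P, hP⟩ : ∃ P, P = Finset.univ.filter (fun p : Fin N → Fin k =>
          (∀ τ, τ ∉ T → p τ = j₀ τ) ∧ ∃ u ∈ S, p u.1 = u.2) := ⟨_, rfl⟩
        have hPm : ∀ p, p ∈ P ↔ (∀ τ, τ ∉ T → p τ = j₀ τ) ∧ ∃ u ∈ S, p u.1 = u.2 := fun p => by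
          rw [hP, Finset.mem_filter]
          exact ⟨fun h => h.2, fun h => ⟨Finset.mem_univ _, h⟩⟩
        have hpat' : (P.card : ℝ) ≤ (k : ℝ) ^ T.card * Real.exp (-(T.card : ℝ) / (8 * k)) := by
          rw [hP]
          convert hpat
        have hcd : (D \ T).card = d - T.card := by
          rw [Finset.card_sdiff_of_subset hTD, hcard]
        have hfib := SXc_fib (SXcX A D j) P (fun j' => fun τ => if τ ∈ T then j' τ else j₀ τ)
          (by
            intro j' hj'
            rw [SXc_mem] at hj'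
            rw [hPm]
            refine ⟨fun τ hτ => if_neg hτ, ?_⟩
            obtain ⟨u, hu, hu'⟩ := hS4 j' hj'.1 (fun τ hτ => by rw [hj'.2 τ hτ, hj₀j τ hτ])
            exact ⟨u, hu, by rw [if_pos (hmT u hu), hu']⟩)
          ((k : ℝ) ^ (d - T.card) * Real.exp (-((d - T.card : ℕ) : ℝ) / (8 * k)))
          (by
            intro p _
            refine le_trans ?_ (ih (d - T.card) (by omega) (D \ T)
              (Finset.disjoint_of_subset_left Finset.sdiff_subset hD) hcd p)
            rw [Nat.cast_le]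
            apply Finset.card_le_card
            intro j' hj'
            rw [Finset.mem_filter, SXc_mem] at hj'
            obtain ⟨⟨ha, hb⟩, hc⟩ := hj'
            rw [SXc_mem]
            refine ⟨ha, fun τ hτ => ?_⟩
            have hc' := congrFun hc τ
            rw [← hc']
            by_cases hτT : τ ∈ T
            · rw [if_pos hτT]
            · rw [if_neg hτT]
              have hτD : τ ∉ D := fun h' => hτ (Finset.mem_sdiff.2 ⟨h', hτT⟩)
              rw [hb τ hτD, hj₀j τ hτD])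
        have hq : 0 ≤ (k : ℝ) ^ (d - T.card) * Real.exp (-((d - T.card : ℕ) : ℝ) / (8 * k)) := by positivity
        refine hfib.trans ((mul_le_mul_of_nonneg_right hpat' hq).trans (le_of_eq ?_))
        have h5 : (k : ℝ) ^ d = (k : ℝ) ^ T.card * (k : ℝ) ^ (d - T.card) := by
          rw [← pow_add]
          congr 1
          omega
        have h6 : Real.exp (-(d : ℝ) / (8 * k)) =
            Real.exp (-(T.card : ℝ) / (8 * k)) * Real.exp (-((d - T.card : ℕ) : ℝ) / (8 * k)) := by
          rw [← Real.exp_add]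
          congr 1
          rw [Nat.cast_sub (by omega)]
          ring
        rw [h5, h6]
        ring

theorem SXc_pat {N k : ℕ} (H : Finset (Fin N)) (j : Fin N → Fin k) (P : Finset (Fin N → Fin k))
    (hP : ∀ p ∈ P, ∀ τ, τ ∉ H → p τ = j τ) : P.card ≤ k ^ H.card := by
  classical
  have h1 : P.card ≤ Fintype.card (H → Fin k) := by
    rw [← Finset.card_univ]
    refine Finset.card_le_card_of_injOn (fun p => fun τ : H => p τ.1) (fun _ _ => Finset.mem_coe.2 (Finset.mem_univ _)) ?_
    intro p hp q hq hpq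
    funext τ
    by_cases hτ : τ ∈ H
    · exact congrFun hpq ⟨τ, hτ⟩
    · rw [hP p hp τ hτ, hP q hq τ hτ]
  rwa [Fintype.card_fun, Fintype.card_fin, Fintype.card_coe] at h1

theorem subcube {N k : ℕ} (hk : 1 ≤ k) (A : Finset (Fin N → Fin k)) (H : Finset (Fin N))
    (h : ∀ D : Finset (Fin N), D.Nonempty → Disjoint D H → ∀ j ∈ A, ∃ S : Finset (Fin N × Fin k),
      S.card ≤ k ∧ (∀ u ∈ S, u.1 ∈ D) ∧ (∀ τ, ∃ q, (τ, q) ∉ S) ∧
        ∀ j' ∈ A, (∀ τ, τ ∉ D → j' τ = j τ) → ∃ u ∈ S, j' u.1 = u.2) :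
    (A.card : ℝ) ≤ (k : ℝ) ^ N * Real.exp (-((N : ℝ) - H.card) / (8 * k)) := by
  classical
  rcases Finset.eq_empty_or_nonempty A with he | ⟨j₁, hj₁⟩
  · rw [he, Finset.card_empty, Nat.cast_zero]
    positivity
  · have hHN : H.card ≤ N := by
      have := Finset.card_le_univ H
      rwa [Fintype.card_fin] at this
    have hcc : (Hᶜ).card = N - H.card := by
      rw [Finset.card_compl, Fintype.card_fin]
    obtain ⟨P, hP⟩ : ∃ P : Finset (Fin N → Fin k), P = Finset.univ.filter (fun p : Fin N → Fin k =>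
      ∀ τ, τ ∉ H → p τ = j₁ τ) := ⟨_, rfl⟩
    have hPm : ∀ p, p ∈ P ↔ ∀ τ, τ ∉ H → p τ = j₁ τ := fun p => by
      rw [hP, Finset.mem_filter]
      exact ⟨fun h => h.2, fun h => ⟨Finset.mem_univ _, h⟩⟩
    have hPc := SXc_pat H j₁ P (fun p hp => (hPm p).1 hp)
    have hfib := SXc_fib A P (fun j' => fun τ => if τ ∈ H then j' τ else j₁ τ)
      (by
        intro j' _
        rw [hPm]
        exact fun τ hτ => if_neg hτ)
      ((k : ℝ) ^ (N - H.card) * Real.exp (-((N - H.card : ℕ) : ℝ) / (8 * k)))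
      (by
        intro p _
        refine le_trans ?_ (SXc_claim hk A H h (N - H.card) Hᶜ disjoint_compl_left hcc p)
        rw [Nat.cast_le]
        apply Finset.card_le_card
        intro j' hj'
        rw [Finset.mem_filter] at hj'
        rw [SXc_mem]
        refine ⟨hj'.1, fun τ hτ => ?_⟩
        rw [Finset.mem_compl, not_not] at hτ
        have hc' := congrFun hj'.2 τ
        rw [← hc', if_pos hτ])
    have hq : 0 ≤ (k : ℝ) ^ (N - H.card) * Real.exp (-((N - H.card : ℕ) : ℝ) / (8 * k)) := by positivity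
    have hPc' : (P.card : ℝ) ≤ (k : ℝ) ^ H.card := by exact_mod_cast hPc
    refine hfib.trans ((mul_le_mul_of_nonneg_right hPc' hq).trans (le_of_eq ?_))
    have h5 : (k : ℝ) ^ N = (k : ℝ) ^ H.card * (k : ℝ) ^ (N - H.card) := by
      rw [← pow_add]
      congr 1
      omega
    rw [h5, Nat.cast_sub hHN]
    ring

end H4.SX
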