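import Pool.Agent.H4.SX.Defs

/-!
# Row SlXd (about 100 lines): the assignments `big`

PROOF. `vx_inj`: `hv` gives `bk τ = bk τ'`, `q = q'` and equal edges' vertices; then `edge_inj hK` (row Ea of H4.SL) gives `ps τ = ps τ'`, and `τ = τ'`
since `finProdFinEquiv.symm` is injective (`Prod.ext`; see `inj_xs` in H4/SL/Eb.lean for the same argument).
`sat_big`: let `C = cl v β z`, `Adm z` (`mem_hf`). If no literal of `C` is satisfied, then `big v M j ∅ (v β q (z q)) = true` for all `q`, so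
`v β q (z q) = vx v M (τ q) (q' q)` with `q' q ≠ j (τ q)`; by `hv`: `bk (τ q) = β`, `q' q = q`, `z q = edge (M β) (ps (τ q)) q`. `edge_trans` (Ea):
`ps (τ q) = ps (τ 0)`, so all `τ q` are equal to `τ 0 =: t`, and `q ≠ j t` for all `q`; take `q = j t`: contradiction. (Compare `sat_hf` in H4/SL/Eb.lean.)
`not_sat_big`: `t ∈ D`: the clause `cl v (bk t) (edge (M (bk t)) (ps t)) ∈ hf v` (`mem_hf`, `adm_edge`), and every literal of it is `(vx v M t q, false)` with
`big v M j D (vx v M t q) = true`.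
-/

set_option autoImplicit false

namespace H4.SX

open H40.SP H4.SL

variable {V : Type} [DecidableEq V] {K s r B : ℕ} {v : Fin B → Fin (K + 1) → Ix s r → V}

theorem big_iff (M : Fin B → Fr K s r) (j : Fin (B * s) → Fin (K + 1)) (D : Finset (Fin (B * s))) (y : V) :
    big v M j D y = true ↔ ∃ τ q, y = vx v M τ q ∧ (τ ∈ D ∨ q ≠ j τ) := by
  unfold big
  exact @decide_eq_true_iff _ (_)

theorem vx_inj (hK : 1 ≤ K) (hv : InjV v) (M : Fin B → Fr K s r) {τ τ' : Fin (B * s)} {q q' : Fin (K + 1)}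
    (h : vx v M τ q = vx v M τ' q') : τ = τ' ∧ q = q' := by
  unfold vx at h
  obtain ⟨h1, h2, h3⟩ := hv _ _ _ _ _ _ h
  subst h2
  refine ⟨?_, rfl⟩
  rw [h1] at h3
  have h4 := edge_inj hK (M (bk τ')) h3
  apply finProdFinEquiv.symm.injective
  exact Prod.ext h1 h4

theorem sat_big (hv : InjV v) (M : Fin B → Fr K s r) (j : Fin (B * s) → Fin (K + 1)) :
    Sat (hf v) (big v M j ∅) := by
  intro C hC
  rw [mem_hf] at hC
  obtain ⟨β, z, hz, rfl⟩ := hC
  by_contra hcon
  push Not at hcon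
  have h1 : ∀ q : Fin (K + 1), big v M j ∅ (v β q (z q)) = true := by
    intro q
    have h2 := hcon (v β q (z q), false) (by
      unfold cl
      rw [Finset.mem_image]
      exact ⟨q, Finset.mem_univ _, rfl⟩)
    simpa using h2
  have h2 : ∀ q : Fin (K + 1), ∃ T : Fin (B * s), q ≠ j T ∧ bk T = β ∧
      z q = edge (M β) (ps T) q := by
    intro q
    obtain ⟨T, q', hT, hq'⟩ := (big_iff M j ∅ _).1 (h1 q)
    have hq2 : q' ≠ j T := by
      rcases hq' with h | h
      · exact absurd h (Finset.notMem_empty _)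
      · exact h
    unfold vx at hT
    obtain ⟨e1, e2, e3⟩ := hv _ _ _ _ _ _ hT
    subst e2
    refine ⟨T, hq2, e1.symm, ?_⟩
    rw [e3, ← e1]
  choose T hT1 hT2 hT3 using h2
  have h4 := edge_trans (M β) hz (fun q => ps (T q)) hT3
  have h5 : ∀ q, T q = T 0 := by
    intro q
    apply finProdFinEquiv.symm.injective
    refine Prod.ext ?_ (h4 q)
    change bk (T q) = bk (T 0)
    rw [hT2, hT2]
  have h6 := hT1 (j (T 0))
  rw [h5 (j (T 0))] at h6
  exact h6 rfl

theorem not_sat_big (M : Fin B → Fr K s r) (j : Fin (B * s) → Fin (K + 1)) {D : Finset (Fin (B * s))}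
    (hD : D.Nonempty) : ¬ Sat (hf v) (big v M j D) := by
  obtain ⟨t, ht⟩ := hD
  intro h
  obtain ⟨l, hl, hl2⟩ := h (cl v (bk t) (edge (M (bk t)) (ps t)))
    ((mem_hf v _).2 ⟨bk t, edge (M (bk t)) (ps t), adm_edge _ _, rfl⟩)
  unfold cl at hl
  rw [Finset.mem_image] at hl
  obtain ⟨q, _, rfl⟩ := hl
  have h1 : big v M j D (v (bk t) q (edge (M (bk t)) (ps t) q)) = true :=
    (big_iff M j D _).2 ⟨t, q, rfl, Or.inl ht⟩
  rw [h1] at hl2
  have h3 : true = false := hl2
  exact absurd h3 (by decide)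

end H4.SX
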