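import Pool.Agent.H4.SX.C
import Pool.Agent.H4.SX.D

/-!
# Row SlXe (about 130 lines): the number of accepted states of a family of frames

PROOF. `H = univ.filter (fun τ => bk τ ∈ R ∨ (bk τ, edge (M (bk τ)) (ps τ)) ∈ sr v R G)`; `|H| ≤ |R| s + hits (sr v R G) M` (`Finset.filter_or`,
`Finset.card_union_le`; the `τ` with `bk τ ∈ R` are the image of `R ×ˢ univ` under `finProdFinEquiv`, `bk (finProdFinEquiv (β, t)) = β`; `hits` is the other
filter). Apply `subcube` (row C) with `N = B s`, `k = K + 1`, `A = acc v M G`, and `H`. Let `D` be nonempty and disjoint from `H`, `j ∈ A`. By `not_sat_big` and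
`hG`, `¬ Sat G (big v M j D)`: there is `C ∈ G` with `big v M j D l.1 ≠ l.2` for all `l ∈ C`.
`S = univ.filter (fun u => u.1 ∈ D ∧ (vx v M u.1 u.2, false) ∈ C)`.
(1) `C` is alive: for `u ∈ ng v ∅ C`, `(v u.1 u.2.1 u.2.2, false) ∈ C`, so `big v M j D (v ..) = true`, `= vx v M τ q`, and `hv` gives `On M u` (`u.1 = bk τ`, witness `ps τ`). So `|ng v R C| ≤ K + 1` by `hR`.
(2) `|S| ≤ K + 1`: `(τ, q) ↦ (bk τ, q, edge (M (bk τ)) (ps τ) q)` maps `S` into `ng v R C` (`bk τ ∉ R` as `τ ∈ D`), injectively (`vx_inj`).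
(3) for every `τ` some `(τ, q) ∉ S`: otherwise `τ ∈ D`, and `univ.image (fun q => (bk τ, q, edge (M (bk τ)) (ps τ) q)) ⊆ ng v R C`, both of card `K + 1` at least/most, so
equal (`Finset.eq_of_subset_of_card_le`), so `(bk τ, edge ..) ∈ sr v R G` (`adm_edge`), `τ ∈ H`: contradiction.
(4) `j' ∈ A` equal to `j` outside `D`: `Sat G (big v M j' ∅)`, so `∃ l ∈ C, big v M j' ∅ l.1 = l.2`. If `l.2 = true`: `l.1 = vx v M τ q`, `q ≠ j' τ`; so `τ ∈ D ∨ q ≠ j τ`, so
`big v M j D l.1 = true = l.2`: contradiction. If `l.2 = false`: `big v M j D l.1 = true`, so `l.1 = vx v M τ q` with `τ ∈ D ∨ q ≠ j τ`, and `big v M j' ∅ l.1 = false` gives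
`q = j' τ`. If `τ ∉ D`: `j' τ = j τ ≠ q`: contradiction. So `(τ, q) ∈ S` and `j' τ = q`.
Finally `exp` is monotone: `B s - |H| ≥ B s - |R| s - hits`.
-/

set_option autoImplicit false

namespace H4.SX

open H40.SP H4.SL

open Classical in
theorem mem_ng_iff {V : Type} {K s r B : ℕ} (v : Fin B → Fin (K + 1) → Ix s r → V) (R : Finset (Fin B))
    (C : Finset (V × Bool)) (u : Lb B K s r) :
    u ∈ ng v R C ↔ u.1 ∉ R ∧ (v u.1 u.2.1 u.2.2, false) ∈ C := by
  unfold ng
  rw [Finset.mem_filter]
  exact ⟨fun h => h.2, fun h => ⟨Finset.mem_univ _, h⟩⟩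

variable {V : Type} [DecidableEq V] {K s r B : ℕ} {v : Fin B → Fin (K + 1) → Ix s r → V} {G : Fml V}

theorem card_bk_mem {s B : ℕ} (R : Finset (Fin B)) :
    (Finset.univ.filter (fun τ : Fin (B * s) => bk τ ∈ R)).card ≤ R.card * s := by
  have h : (Finset.univ.filter (fun τ : Fin (B * s) => bk τ ∈ R)).card ≤
      (R ×ˢ (Finset.univ : Finset (Fin s))).card := by
    apply Finset.card_le_card_of_injOn (fun τ => finProdFinEquiv.symm τ)
    · intro τ hτ
      have h1 : bk τ ∈ R := (Finset.mem_filter.mp hτ).2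
      exact Finset.mem_coe.mpr (Finset.mem_product.mpr ⟨h1, Finset.mem_univ _⟩)
    · intro a _ b _ hab
      exact finProdFinEquiv.symm.injective hab
  rwa [Finset.card_product, Finset.card_univ, Fintype.card_fin] at h

theorem card_acc_le (hK : 1 ≤ K) (hv : InjV v) (hG : ∀ a, Sat G a → Sat (hf v) a) (M : Fin B → Fr K s r)
    (R : Finset (Fin B)) (hR : ∀ C ∈ G, (∀ u ∈ ng v ∅ C, On M u) → (ng v R C).card ≤ K + 1) :
    ((acc v M G).card : ℝ) ≤ ((K : ℝ) + 1) ^ (B * s) *
      Real.exp (-((B : ℝ) * s - R.card * s - hits (sr v R G) M) / (8 * ((K : ℝ) + 1))) := by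
  classical
  set H : Finset (Fin (B * s)) := Finset.univ.filter
    (fun τ => bk τ ∈ R ∨ (bk τ, edge (M (bk τ)) (ps τ)) ∈ sr v R G) with hH
  have hHc : H.card ≤ R.card * s + hits (sr v R G) M := by
    rw [hH, Finset.filter_or]
    refine (Finset.card_union_le _ _).trans (Nat.add_le_add (card_bk_mem R) ?_)
    unfold hits
    apply Finset.card_le_card
    intro τ hτ
    rw [Finset.mem_filter] at hτ ⊢
    exact hτ
  have key := subcube (N := B * s) (k := K + 1) (by omega) (acc v M G) H (by
    intro D hD hDH j _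
    have hns : ¬ Sat G (big v M j D) := fun h => not_sat_big M j hD (hG _ h)
    unfold Sat at hns
    push Not at hns
    obtain ⟨C, hCG, hC⟩ := hns
    have halive : ∀ u ∈ ng v ∅ C, On M u := by
      intro u hu
      rw [mem_ng_iff] at hu
      have h1 := hC _ hu.2
      have h2 : big v M j D (v u.1 u.2.1 u.2.2) = true := by
        simpa using h1
      rw [big_iff] at h2
      obtain ⟨τ, q, hτ, _⟩ := h2
      unfold vx at hτ
      obtain ⟨e1, e2, e3⟩ := hv _ _ _ _ _ _ hτ
      refine ⟨ps τ, ?_⟩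
      rw [e3, e1, e2]
    have hcard := hR C hCG halive
    have hDR : ∀ τ ∈ D, bk τ ∉ R ∧ (bk τ, edge (M (bk τ)) (ps τ)) ∉ sr v R G := by
      intro τ hτ
      have h1 : τ ∉ H := Finset.disjoint_left.mp hDH hτ
      rw [hH, Finset.mem_filter] at h1
      push Not at h1
      exact h1 (Finset.mem_univ _)
    have hmem : ∀ τ q, τ ∈ D → (vx v M τ q, false) ∈ C →
        ((bk τ, q, edge (M (bk τ)) (ps τ) q) : Lb B K s r) ∈ ng v R C := by
      intro τ q hτ hq
      rw [mem_ng_iff]
      exact ⟨(hDR τ hτ).1, hq⟩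
    refine ⟨Finset.univ.filter (fun u : Fin (B * s) × Fin (K + 1) =>
      u.1 ∈ D ∧ (vx v M u.1 u.2, false) ∈ C), ?_, ?_, ?_, ?_⟩
    · refine le_trans ?_ hcard
      apply Finset.card_le_card_of_injOn
        (fun u => ((bk u.1, u.2, edge (M (bk u.1)) (ps u.1) u.2) : Lb B K s r))
      · intro u hu
        have h1 := (Finset.mem_filter.mp hu).2
        exact Finset.mem_coe.mpr (hmem u.1 u.2 h1.1 h1.2)
      · intro u _ u' _ huu
        have h1 : vx v M u.1 u.2 = vx v M u'.1 u'.2 :=
          congrArg (fun p : Lb B K s r => v p.1 p.2.1 p.2.2) huu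
        obtain ⟨e1, e2⟩ := vx_inj hK hv M h1
        exact Prod.ext e1 e2
    · intro u hu
      exact (Finset.mem_filter.mp hu).2.1
    · intro τ
      by_contra hcon
      push Not at hcon
      have h1 : ∀ q, τ ∈ D ∧ (vx v M τ q, false) ∈ C := fun q => (Finset.mem_filter.mp (hcon q)).2
      have hτD : τ ∈ D := (h1 0).1
      have hsub : Finset.univ.image (fun q => ((bk τ, q, edge (M (bk τ)) (ps τ) q) : Lb B K s r)) ⊆
          ng v R C := by
        intro x hx
        rw [Finset.mem_image] at hx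
        obtain ⟨q, _, rfl⟩ := hx
        exact hmem τ q hτD (h1 q).2
      have hcd : (Finset.univ.image
          (fun q => ((bk τ, q, edge (M (bk τ)) (ps τ) q) : Lb B K s r))).card = K + 1 := by
        rw [Finset.card_image_of_injective, Finset.card_univ, Fintype.card_fin]
        intro q q' hqq
        exact congrArg (fun p : Lb B K s r => p.2.1) hqq
      have heq := Finset.eq_of_subset_of_card_le hsub (by rw [hcd]; exact hcard)
      apply (hDR τ hτD).2
      unfold sr
      rw [Finset.mem_filter]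
      refine ⟨Finset.mem_univ _, (hDR τ hτD).1, adm_edge _ _, C, hCG, ?_⟩
      rw [← heq]
    · intro j' hj' hjj
      unfold acc at hj'
      rw [Finset.mem_filter] at hj'
      obtain ⟨l, hlC, hl⟩ := hj'.2 C hCG
      have hl2 := hC l hlC
      rcases hb : l.2 with _ | _
      · rw [hb] at hl hl2
        have h1 : big v M j D l.1 = true := by simpa using hl2
        rw [big_iff] at h1
        obtain ⟨τ, q, hτ, hor⟩ := h1
        have h2 : ¬ (big v M j' ∅ l.1 = true) := by rw [hl]; simp
        rw [big_iff] at h2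
        push Not at h2
        have h3 := h2 τ q hτ
        have hqj : q = j' τ := h3.2
        have hτD : τ ∈ D := by
          by_contra hτD
          rcases hor with h | h
          · exact hτD h
          · apply h
            rw [hqj, hjj τ hτD]
        refine ⟨(τ, q), ?_, hqj.symm⟩
        rw [Finset.mem_filter]
        refine ⟨Finset.mem_univ _, hτD, ?_⟩
        have h4 : ((vx v M τ q, false) : V × Bool) = l := Prod.ext hτ.symm hb.symm
        change ((vx v M τ q, false) : V × Bool) ∈ C
        rw [h4]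
        exact hlC
      · exfalso
        rw [hb] at hl hl2
        rw [big_iff] at hl
        obtain ⟨τ, q, hτ, hor⟩ := hl
        have hq : q ≠ j' τ := by
          rcases hor with h | h
          · exact absurd h (Finset.notMem_empty _)
          · exact h
        apply hl2
        rw [big_iff]
        refine ⟨τ, q, hτ, ?_⟩
        by_cases hτD : τ ∈ D
        · exact Or.inl hτD
        · right
          rw [← hjj τ hτD]
          exact hq)
  refine key.trans ?_
  have hk : (((K + 1 : ℕ) : ℝ)) = (K : ℝ) + 1 := by push_cast; ring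
  rw [hk]
  apply mul_le_mul_of_nonneg_left _ (by positivity)
  apply Real.exp_le_exp.mpr
  apply div_le_div_of_nonneg_right _ (by positivity)
  have h5 : (H.card : ℝ) ≤ (R.card : ℝ) * s + hits (sr v R G) M := by exact_mod_cast hHc
  push_cast
  linarith

end H4.SX
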