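import Pool.Agent.H4.SX.Defs

/-!
# Row SlXf (about 60 lines): the served clauses

PROOF. `adm_sr`: by definition. `card_sr_le`: for `p ∈ sr v R G` choose `C p ∈ G` with `ng v R (C p) = univ.image (fun q => (p.1, q, p.2 q))`. The map `p ↦ C p` is injective on
`sr v R G`: if the images for `p` and `p'` are equal, then (`q = 0`, membership) `p.1 = p'.1`, and for every `q`: `(p.1, q, p.2 q)` is in the image for `p'`, so
`p.2 q = p'.2 q`. `Finset.card_le_card_of_injOn`.
`hits_tail`: `2^(B s/2) #{M : B s ≤ 2 hits P M} ≤ ∑_M 2^(hits P M)`; `hits P M = ∑ β, hit (pt P β) (M β)` (`hit_sum`, H4/SL/Ee.lean), so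
`∑_M 2^(hits P M) = ∏ β, ∑_(M' : Fr K s r) 2^(hit (pt P β) M')` (`Finset.prod_univ_sum`, `Fintype.piFinset_univ`; `Finset.prod_pow_eq_pow_sum`), and each factor is at most
`card (Fr K s r) exp (log 5 + s (|pt P β|/tot + 1/20))` (`spread`, H4/SL/Gd.lean; all elements of `pt P β` are admissible: `mem_pt`). The product is
`card (Fin B → Fr K s r) exp (B log 5 + s (|P|/tot + B/20))` (`sum_pt`, `Real.exp_sum`, `Fintype.card_fun`). `2^(B s/2) = exp ((B s/2) log 2)` (`Real.rpow` or `sqrt`: e.g. use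
`exp (hits log 2) ≥ exp (B s/2 log 2)`).
-/

set_option autoImplicit false

namespace H4.SX

open H40.SP H4.SL

variable {V : Type} [DecidableEq V] {K s r B : ℕ} {v : Fin B → Fin (K + 1) → Ix s r → V} {G : Fml V}

theorem adm_sr (R : Finset (Fin B)) (p : Fin B × (Fin (K + 1) → Ix s r)) (hp : p ∈ sr v R G) : Adm p.2 := by
  classical
  unfold sr at hp
  rw [Finset.mem_filter] at hp
  exact hp.2.2.1

theorem card_sr_le (R : Finset (Fin B)) : (sr v R G).card ≤ G.card := by
  have hex : ∀ p ∈ sr v R G, ∃ C ∈ G, ∀ u, u ∈ ng v R C ↔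
      ∃ q, ((p.1, q, p.2 q) : Lb B K s r) = u := by
    classical
    intro p hp
    unfold sr at hp
    rw [Finset.mem_filter] at hp
    obtain ⟨C, hC, h⟩ := hp.2.2.2
    refine ⟨C, hC, fun u => ?_⟩
    rw [h, Finset.mem_image]
    simp only [Finset.mem_univ, true_and]
  choose! C hC using hex
  refine Finset.card_le_card_of_injOn C (fun p hp => (hC p hp).1) ?_
  intro p hp p' hp' h
  have h1 := (hC p hp).2
  have h2 := (hC p' hp').2
  rw [h] at h1
  have h4 : ∀ q, p.1 = p'.1 ∧ p.2 q = p'.2 q := by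
    intro q
    obtain ⟨q', hq'⟩ := (h2 _).1 ((h1 _).2 ⟨q, rfl⟩)
    simp only [Prod.mk.injEq] at hq'
    obtain ⟨a1, a2, a3⟩ := hq'
    subst a2
    exact ⟨a1.symm, a3.symm⟩
  exact Prod.ext (h4 0).1 (funext fun q => (h4 q).2)

theorem hits_tail (hK : 1 ≤ K) (hs : 1 ≤ s) (hr : 400 * s * 2 ^ s * 2 ^ (2 * K + 1) ≤ 2 ^ r)
    (P : Finset (Fin B × (Fin (K + 1) → Ix s r))) (hP : ∀ p ∈ P, Adm p.2) :
    ((Finset.univ.filter (fun M : Fin B → Fr K s r => B * s ≤ 2 * hits P M)).card : ℝ) ≤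
      (Fintype.card (Fin B → Fr K s r) : ℝ) *
        Real.exp (B * Real.log 5 + s * ((P.card : ℝ) / tot K s r + B / 20) - B * s / 2 * Real.log 2) := by
  have hl2 : 0 < Real.log 2 := Real.log_pos one_lt_two
  have e1 : ∑ M : Fin B → Fr K s r, (2 : ℝ) ^ hits P M =
      ∏ β, ∑ M' : Fr K s r, (2 : ℝ) ^ hit (pt P β) M' := by
    rw [Finset.prod_univ_sum, Fintype.piFinset_univ]
    refine Finset.sum_congr rfl fun M _ => ?_
    rw [hit_sum, Finset.prod_pow_eq_pow_sum]
  have e2 : ∏ β, ∑ M' : Fr K s r, (2 : ℝ) ^ hit (pt P β) M' ≤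
      ∏ β : Fin B, ((Fintype.card (Fr K s r) : ℝ) *
        Real.exp (Real.log 5 + s * (((pt P β).card : ℝ) / tot K s r + 1 / 20))) := by
    refine Finset.prod_le_prod (fun β _ => Finset.sum_nonneg fun M' _ => by positivity)
      fun β _ => ?_
    exact spread hK hs hr (fun z hz => hP (β, z) ((mem_pt P β z).1 hz))
  have e3 : ∏ β : Fin B, ((Fintype.card (Fr K s r) : ℝ) *
        Real.exp (Real.log 5 + s * (((pt P β).card : ℝ) / tot K s r + 1 / 20))) =
      (Fintype.card (Fin B → Fr K s r) : ℝ) *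
        Real.exp (B * Real.log 5 + s * ((P.card : ℝ) / tot K s r + B / 20)) := by
    rw [Finset.prod_mul_distrib, Finset.prod_const, Finset.card_univ, Fintype.card_fin,
      ← Real.exp_sum, Fintype.card_fun, Fintype.card_fin]
    push_cast
    congr 2
    rw [Finset.sum_add_distrib, Finset.sum_const, Finset.card_univ, Fintype.card_fin,
      nsmul_eq_mul, ← Finset.mul_sum, Finset.sum_add_distrib, Finset.sum_const, Finset.card_univ,
      Fintype.card_fin, nsmul_eq_mul, ← Finset.sum_div]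
    have e4 : ∑ β, ((pt P β).card : ℝ) = (P.card : ℝ) := by
      rw [← sum_pt P]
      push_cast
      rfl
    rw [e4]
    ring
  have e5 : ((Finset.univ.filter (fun M : Fin B → Fr K s r => B * s ≤ 2 * hits P M)).card : ℝ) *
      Real.exp (B * s / 2 * Real.log 2) ≤ ∑ M : Fin B → Fr K s r, (2 : ℝ) ^ hits P M := by
    rw [← nsmul_eq_mul, ← Finset.sum_const]
    refine (Finset.sum_le_sum fun M hM => ?_).trans
      (Finset.sum_le_sum_of_subset_of_nonneg (Finset.filter_subset _ _)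
        fun M _ _ => by positivity)
    have h1 : ((B * s : ℕ) : ℝ) ≤ ((2 * hits P M : ℕ) : ℝ) := by
      exact_mod_cast (Finset.mem_filter.1 hM).2
    push_cast at h1
    have h2 : (2 : ℝ) ^ hits P M = Real.exp (hits P M * Real.log 2) := by
      rw [← Real.log_pow, Real.exp_log (by positivity)]
    rw [h2]
    apply Real.exp_le_exp.2
    apply mul_le_mul_of_nonneg_right _ hl2.le
    linarith
  rw [Real.exp_sub, ← mul_div_assoc, le_div_iff₀ (Real.exp_pos _)]
  refine e5.trans ?_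
  rw [e1]
  exact e2.trans e3.le

end H4.SX
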