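import Pool.Agent.H4.SX.Defs

/-!
# Row SlXg (about 130 lines): the probability that given labels are on the edges

PROOF. `rp_rep`: `rp (rep M g) β t q = g β t q`: by `Fin.cases` on `q`; `edge M t = ed M.1 M.2.1 (M.2.2 t) t`, whose second components are `A t` and `c q` (`ed_zero`, `ed_succ`, H4/SL/Ea.lean, or
`rfl`). `rep_rp`: `rep M (rp M) = M`. `rep_rep`: `rep (rep M g) g' = rep M g'` by `rfl`.
`card_on`: for `t : U → Fin s` (or `t : Lb B K s r → Fin s` up to values outside `U`; a subtype function is best) let `E_t = {M ∈ E : ∀ u ∈ U, edge (M u.1) (t u) u.2.1 = u.2.2}`. The filter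
is contained in the union of the `E_t` over `t : {u // u ∈ U} → Fin s` (`s^|U|` many: `Fintype.card_fun`, `Fintype.card_coe`). CLAIM: `|E_t| (2^r)^|U| ≤ |E|`. If `E_t` is empty, clear. Otherwise the
positions `(u.1, t u, u.2.1)` of different `u ∈ U` are different (equal positions force `u.2.2 = edge .. = u'.2.2` for `M ∈ E_t`). Map
`E_t ×ˢ univ : (Fin B → Fr) × ({u // u ∈ U} → Vc r)` to `E` by `(M, d) ↦ rep M (fun β t' q => if h : ∃ u : {u // u ∈ U}, u.1.1 = β ∧ t u = t' ∧ u.1.2.1 = q then d h.choose else rp M β t' q)`.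
It is in `E` by `hE`: outside the blocks of `U` nothing changes (`rep_rp` at these blocks: `funext`/`Prod.ext`). Injective: the value at the position of `u` is `d u` (uniqueness of the position), and
`M` is recovered: `(M β).1` is unchanged, `rp M` is unchanged at other positions and is the known value `u.1.2.2.2` at the position of `u` (`M ∈ E_t`); `M = rep M (rp M)` is determined by
`fun β => (M β).1` and `rp M`. `Finset.card_le_card_of_injOn`, `Finset.card_product`, `Fintype.card_fun`, card (Vc r) = 2^r. Then sum over `t` (`Finset.card_biUnion_le`).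
-/

set_option autoImplicit false

namespace H4.SX

open H40.SP H4.SL

variable {K s r B : ℕ}

theorem rp_rep (M : Fin B → Fr K s r) (g : Fin B → Fin s → Fin (K + 1) → Vc r) : rp (rep M g) = g := by
  funext β t q
  refine Fin.cases ?_ (fun q => ?_) q
  · rfl
  · rfl

theorem rep_rp (M : Fin B → Fr K s r) : rep M (rp M) = M := by
  funext β
  rfl

open Classical in
theorem card_on_aux (U : Finset (Lb B K s r)) (E : Finset (Fin B → Fr K s r))
    (hE : ∀ M ∈ E, ∀ M' : Fin B → Fr K s r, (∀ β, β ∉ U.image Prod.fst → M' β = M β) → M' ∈ E)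
    (t : {u // u ∈ U} → Fin s) :
    (E.filter (fun M => ∀ u : {u // u ∈ U}, edge (M u.1.1) (t u) u.1.2.1 = u.1.2.2)).card *
      (2 ^ r) ^ U.card ≤ E.card := by
  rcases Finset.eq_empty_or_nonempty
    (E.filter (fun M => ∀ u : {u // u ∈ U}, edge (M u.1.1) (t u) u.1.2.1 = u.1.2.2)) with h0 | ⟨M0, hM0⟩
  · rw [h0, Finset.card_empty, zero_mul]
    exact Nat.zero_le _
  have huniq : ∀ u u' : {u // u ∈ U}, u.1.1 = u'.1.1 → t u = t u' → u.1.2.1 = u'.1.2.1 → u = u' := by
    intro u u' h1 h2 h3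
    have e1 := (Finset.mem_filter.1 hM0).2 u
    have e2 := (Finset.mem_filter.1 hM0).2 u'
    apply Subtype.ext
    refine Prod.ext h1 (Prod.ext h3 ?_)
    rw [← e1, ← e2, h1, h2, h3]
  obtain ⟨F, hF⟩ : ∃ F : (Fin B → Fr K s r) × ({u // u ∈ U} → Vc r) → (Fin B → Fr K s r), ∀ p,
      F p = rep p.1 (fun β t' q => if h : ∃ u : {u // u ∈ U}, u.1.1 = β ∧ t u = t' ∧ u.1.2.1 = q then
        p.2 h.choose else rp p.1 β t' q) := ⟨_, fun _ => rfl⟩
  have hFat : ∀ p (u : {u // u ∈ U}), rp (F p) u.1.1 (t u) u.1.2.1 = p.2 u := by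
    intro p u
    rw [hF, rp_rep]
    have h : ∃ u' : {u // u ∈ U}, u'.1.1 = u.1.1 ∧ t u' = t u ∧ u'.1.2.1 = u.1.2.1 := ⟨u, rfl, rfl, rfl⟩
    refine (dif_pos h).trans ?_
    exact congrArg p.2 (huniq _ _ h.choose_spec.1 h.choose_spec.2.1 h.choose_spec.2.2)
  have hFoff : ∀ p β t' q, (¬ ∃ u : {u // u ∈ U}, u.1.1 = β ∧ t u = t' ∧ u.1.2.1 = q) →
      rp (F p) β t' q = rp p.1 β t' q := by
    intro p β t' q h
    rw [hF, rp_rep]
    exact dif_neg h
  have hF1 : ∀ p β, (F p β).1 = (p.1 β).1 := by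
    intro p β
    rw [hF]
    rfl
  have hrr : ∀ M M' : Fin B → Fr K s r, ∀ β, (M β).1 = (M' β).1 → (∀ t' q, rp M β t' q = rp M' β t' q) →
      M β = M' β := by
    intro M M' β h1 h2
    have e1 : (rep M (rp M)) β = (rep M' (rp M')) β := by
      show ((M β).1, (fun t => rp M β t 0), (fun t q => rp M β t (Fin.succ q))) =
        ((M' β).1, (fun t => rp M' β t 0), (fun t q => rp M' β t (Fin.succ q)))
      refine Prod.ext h1 (Prod.ext ?_ ?_)
      · funext t'
        exact h2 t' 0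
      · funext t' q
        exact h2 t' q.succ
    rw [rep_rp, rep_rp] at e1
    exact e1
  have hmaps : ∀ p ∈ (E.filter (fun M => ∀ u : {u // u ∈ U}, edge (M u.1.1) (t u) u.1.2.1 = u.1.2.2)) ×ˢ
      (Finset.univ : Finset ({u // u ∈ U} → Vc r)), F p ∈ E := by
    intro p hp
    have hp1 := (Finset.mem_filter.1 (Finset.mem_product.1 hp).1).1
    refine hE p.1 hp1 (F p) ?_
    intro β hβ
    refine hrr _ _ β (hF1 p β) (fun t' q => hFoff p β t' q ?_)
    rintro ⟨u, hu, -, -⟩
    exact hβ (Finset.mem_image.2 ⟨u.1, u.2, hu⟩)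
  have hinj : Set.InjOn F (((E.filter (fun M => ∀ u : {u // u ∈ U}, edge (M u.1.1) (t u) u.1.2.1 = u.1.2.2)) ×ˢ
      (Finset.univ : Finset ({u // u ∈ U} → Vc r)) : Finset _) : Set _) := by
    intro p hp p' hp' h
    have hM := (Finset.mem_filter.1 (Finset.mem_product.1 (Finset.mem_coe.1 hp)).1).2
    have hM' := (Finset.mem_filter.1 (Finset.mem_product.1 (Finset.mem_coe.1 hp')).1).2
    have hd : p.2 = p'.2 := by
      funext u
      rw [← hFat p u, ← hFat p' u, h]
    have hMM : p.1 = p'.1 := by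
      funext β
      refine hrr _ _ β ?_ ?_
      · rw [← hF1 p β, ← hF1 p' β, h]
      · intro t' q
        by_cases hh : ∃ u : {u // u ∈ U}, u.1.1 = β ∧ t u = t' ∧ u.1.2.1 = q
        · obtain ⟨u, rfl, rfl, rfl⟩ := hh
          show (edge (p.1 u.1.1) (t u) u.1.2.1).2 = (edge (p'.1 u.1.1) (t u) u.1.2.1).2
          rw [hM u, hM' u]
        · rw [← hFoff p β t' q hh, ← hFoff p' β t' q hh, h]
    exact Prod.ext hMM hd
  have h := Finset.card_le_card_of_injOn F hmaps hinj
  have hc : Fintype.card (Vc r) = 2 ^ r := by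
    show Fintype.card (Fin r → ZMod 2) = 2 ^ r
    rw [Fintype.card_fun, ZMod.card, Fintype.card_fin]
  rw [Finset.card_product, Finset.card_univ, Fintype.card_fun, Fintype.card_coe, hc] at h
  exact h

open Classical in
theorem card_on (U : Finset (Lb B K s r)) (E : Finset (Fin B → Fr K s r))
    (hE : ∀ M ∈ E, ∀ M' : Fin B → Fr K s r, (∀ β, β ∉ U.image Prod.fst → M' β = M β) → M' ∈ E) :
    (E.filter (fun M => ∀ u ∈ U, On M u)).card * (2 ^ r) ^ U.card ≤ s ^ U.card * E.card := by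
  have hsub : E.filter (fun M => ∀ u ∈ U, On M u) ⊆ Finset.univ.biUnion
      (fun t : {u // u ∈ U} → Fin s =>
        E.filter (fun M => ∀ u : {u // u ∈ U}, edge (M u.1.1) (t u) u.1.2.1 = u.1.2.2)) := by
    intro M hM
    rw [Finset.mem_filter] at hM
    have h : ∀ u : {u // u ∈ U}, ∃ t, edge (M u.1.1) t u.1.2.1 = u.1.2.2 := fun u => hM.2 u.1 u.2
    choose t ht using h
    exact Finset.mem_biUnion.2 ⟨t, Finset.mem_univ _, Finset.mem_filter.2 ⟨hM.1, ht⟩⟩
  refine (Nat.mul_le_mul_right _ ((Finset.card_le_card hsub).trans Finset.card_biUnion_le)).trans ?_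
  rw [Finset.sum_mul]
  refine (Finset.sum_le_sum (fun t _ => card_on_aux U E hE t)).trans (le_of_eq ?_)
  rw [Finset.sum_const, Finset.card_univ, Fintype.card_fun, Fintype.card_fin, Fintype.card_coe, smul_eq_mul]

end H4.SX
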