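import Pool.Agent.H4.SX.G

/-!
# Row SlXh (about 120 lines): the exceptional frames

PROOF. Induction on `ℓ` (outer) and on the list `𝒞` (inner), `R` general. Let `n = Fintype.card (Fin B → Fr K s r)`.
`ℓ = 0`: `|Ex| ≤ n`, and `(1 - p x)^length ≤ 1`. `𝒞 = []`: `Ex v [] R ℓ = ∅` (take `R' = R`).
Step for `C :: 𝒞` and `ℓ + 1`. If `(ng v R C).card ≥ K + 2`, choose `U ⊆ ng v R C` with `U.card = K + 2` (`Finset.exists_subset_card_eq`), `R₁ = R ∪ U.image Prod.fst` (`|R₁| ≤ |R| + K + 2`);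
then `Ex v (C :: 𝒞) R (ℓ+1) ⊆ Ex v 𝒞 R (ℓ+1) ∪ (Ex v (C :: 𝒞) R₁ ℓ).filter (fun M => ∀ u ∈ U, On M u)`; if `(ng v R C).card ≤ K + 1`, then `Ex v (C :: 𝒞) R (ℓ+1) ⊆ Ex v 𝒞 R (ℓ+1)`:
let `M` be in the left side and not in the first set of the right side: there is `R' ⊇ R`, `|R'| ≤ |R| + (ℓ+1)(K+2)`, good for `𝒞`. It is not good for `C`: `(∀ u ∈ ng v R C, On M u)` and
`(ng v R' C).card > K + 1`; as `ng v R' C ⊆ ng v R C`, `(ng v R C).card ≥ K + 2`, and `∀ u ∈ U, On M u`. If `M ∉ Ex v (C :: 𝒞) R₁ ℓ`, there is `R'' ⊇ R₁`, `|R''| ≤ |R₁| + ℓ (K+2) ≤ |R| + (ℓ+1)(K+2)`, such that every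
`C' ∈ C :: 𝒞` with `∀ u ∈ ng v R₁ C', On M u` has `(ng v R'' C').card ≤ K + 1`; since `ng v R₁ C' ⊆ ng v R C'`, `R''` shows that `M ∉ Ex v (C :: 𝒞) R (ℓ+1)`: contradiction.
`card_on` (row G, statement only) applies to `E = Ex v (C :: 𝒞) R₁ ℓ`: membership depends only on the `M β` with `β ∉ R₁` (if `M' β = M β` for all `β ∉ U.image Prod.fst`, then for `u ∈ ng v R₁ C'`, `u.1 ∉ R₁`, so
`On M' u ↔ On M u`). So the second part has card `≤ (s/2^r)^(K+2) |Ex v (C :: 𝒞) R₁ ℓ| ≤ p n/(x^ℓ (1 - p x)^(len+1))`, the first `≤ n/(x^(ℓ+1) (1 - p x)^len)`; the sum is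
`n/(x^(ℓ+1) (1-px)^(len+1)) ((1 - p x) + p x)`.
-/

set_option autoImplicit false

namespace H4.SX

open H40.SP H4.SL

variable {V : Type} [DecidableEq V] {K s r B : ℕ} {v : Fin B → Fin (K + 1) → Ix s r → V}

omit [DecidableEq V] in
private theorem H_mem_ng {R : Finset (Fin B)} {C : Finset (V × Bool)} {u : Lb B K s r} :
    u ∈ ng v R C ↔ u.1 ∉ R ∧ (v u.1 u.2.1 u.2.2, false) ∈ C := by
  unfold ng
  simp

omit [DecidableEq V] in
private theorem H_mem_Ex {𝒞 : List (Finset (V × Bool))} {R : Finset (Fin B)} {ℓ : ℕ}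
    {M : Fin B → Fr K s r} :
    M ∈ Ex v 𝒞 R ℓ ↔ ¬ ∃ R' : Finset (Fin B), R ⊆ R' ∧ R'.card ≤ R.card + ℓ * (K + 2) ∧
    ∀ C ∈ 𝒞, (∀ u ∈ ng v R C, On M u) → (ng v R' C).card ≤ K + 1 := by
  simp only [Ex, Finset.mem_filter, Finset.mem_univ, true_and]

omit [DecidableEq V] in
private theorem H_ng_mono {R R' : Finset (Fin B)} (h : R ⊆ R') (C : Finset (V × Bool)) :
    ng v R' C ⊆ ng v R C := by
  intro u hu
  rw [H_mem_ng] at hu ⊢
  exact ⟨fun h1 => hu.1 (h h1), hu.2⟩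

open Classical in
omit [DecidableEq V] in
private theorem H_sub1 {C : Finset (V × Bool)} {𝒞 : List (Finset (V × Bool))} {R : Finset (Fin B)} {ℓ : ℕ}
    {U : Finset (Lb B K s r)} (hU : U ⊆ ng v R C) (hc : U.card = K + 2) :
    Ex v (C :: 𝒞) R (ℓ + 1) ⊆ Ex v 𝒞 R (ℓ + 1) ∪
      (Ex v (C :: 𝒞) (R ∪ U.image Prod.fst) ℓ).filter (fun M => ∀ u ∈ U, On M u) := by
  intro M hM
  rw [Finset.mem_union]
  by_cases hA : M ∈ Ex v 𝒞 R (ℓ + 1)
  · exact Or.inl hA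
  right
  rw [H_mem_Ex, not_not] at hA
  obtain ⟨R', h1, h2, h3⟩ := hA
  have h4 : ∀ u ∈ ng v R C, On M u := by
    by_contra hn
    refine (H_mem_Ex.1 hM) ⟨R', h1, h2, fun C' hC' h5 => ?_⟩
    rcases List.mem_cons.1 hC' with rfl | h6
    · exact absurd h5 hn
    · exact h3 C' h6 h5
  rw [Finset.mem_filter]
  refine ⟨?_, fun u hu => h4 u (hU hu)⟩
  rw [H_mem_Ex]
  rintro ⟨R'', g1, g2, g3⟩
  have hsub : R ⊆ R ∪ U.image Prod.fst := Finset.subset_union_left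
  refine (H_mem_Ex.1 hM) ⟨R'', hsub.trans g1, ?_, fun C' hC' h5 => g3 C' hC' fun u hu => h5 u (H_ng_mono hsub C' hu)⟩
  have h7 : (R ∪ U.image Prod.fst).card ≤ R.card + (K + 2) :=
    (Finset.card_union_le _ _).trans (Nat.add_le_add_left (Finset.card_image_le.trans hc.le) _)
  calc R''.card ≤ (R ∪ U.image Prod.fst).card + ℓ * (K + 2) := g2
    _ ≤ R.card + (K + 2) + ℓ * (K + 2) := Nat.add_le_add_right h7 _
    _ = R.card + (ℓ + 1) * (K + 2) := by ring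

omit [DecidableEq V] in
private theorem H_sub2 {C : Finset (V × Bool)} {𝒞 : List (Finset (V × Bool))} {R : Finset (Fin B)} {ℓ : ℕ}
    (hc : (ng v R C).card ≤ K + 1) : Ex v (C :: 𝒞) R ℓ ⊆ Ex v 𝒞 R ℓ := by
  intro M hM
  rw [H_mem_Ex] at hM ⊢
  rintro ⟨R', h1, h2, h3⟩
  refine hM ⟨R', h1, h2, fun C' hC' h5 => ?_⟩
  rcases List.mem_cons.1 hC' with rfl | h6
  · exact (Finset.card_le_card (H_ng_mono h1 C')).trans hc
  · exact h3 C' h6 h5

omit [DecidableEq V] in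
private theorem H_inv {𝒞 : List (Finset (V × Bool))} {R : Finset (Fin B)} {ℓ : ℕ}
    {U : Finset (Lb B K s r)} (M : Fin B → Fr K s r) (hM : M ∈ Ex v 𝒞 (R ∪ U.image Prod.fst) ℓ)
    (M' : Fin B → Fr K s r) (h : ∀ β, β ∉ U.image Prod.fst → M' β = M β) :
    M' ∈ Ex v 𝒞 (R ∪ U.image Prod.fst) ℓ := by
  rw [H_mem_Ex] at hM ⊢
  rintro ⟨R', h1, h2, h3⟩
  refine hM ⟨R', h1, h2, fun C' hC' h5 => h3 C' hC' fun u hu => ?_⟩
  have h6 := h5 u hu
  have h7 : M' u.1 = M u.1 := h _ fun h8 =>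
    (H_mem_ng.1 hu).1 (Finset.mem_union_right _ h8)
  unfold On at h6 ⊢
  rw [h7]
  exact h6

private theorem H_alg {n X x D p : ℝ} (hX : X ≠ 0) (hx : x ≠ 0) (hD : D ≠ 0) (hd : 1 - p * x ≠ 0) :
    n / (X * x * D) + p * (n / (X * (D * (1 - p * x)))) = n / (X * x * (D * (1 - p * x))) := by
  obtain ⟨d, hdd⟩ : ∃ d, d = 1 - p * x := ⟨_, rfl⟩
  rw [← hdd] at hd ⊢
  field_simp
  rw [hdd]
  ring

theorem card_Ex {x p : ℝ} (hx : 0 < x) (hp : p = ((s : ℝ) / 2 ^ r) ^ (K + 2)) (hpx : p * x < 1) (ℓ : ℕ)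
    (𝒞 : List (Finset (V × Bool))) (R : Finset (Fin B)) :
    ((Ex v 𝒞 R ℓ).card : ℝ) ≤ Fintype.card (Fin B → Fr K s r) / (x ^ ℓ * (1 - p * x) ^ 𝒞.length) := by
  classical
  have hp0 : 0 ≤ p := by
    rw [hp]
    positivity
  have hd : 0 < 1 - p * x := by linarith
  have hd1 : 1 - p * x ≤ 1 := by nlinarith [mul_nonneg hp0 hx.le]
  set n : ℝ := (Fintype.card (Fin B → Fr K s r) : ℝ) with hn
  have hn0 : 0 ≤ n := Nat.cast_nonneg _
  induction ℓ generalizing 𝒞 R with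
  | zero =>
    have h1 : ((Ex v 𝒞 R 0).card : ℝ) ≤ n := by
      rw [hn]
      exact_mod_cast Finset.card_le_univ _
    refine h1.trans ?_
    rw [pow_zero, one_mul, le_div_iff₀ (pow_pos hd _)]
    exact mul_le_of_le_one_right hn0 (pow_le_one₀ hd.le hd1)
  | succ ℓ ih =>
    induction 𝒞 with
    | nil =>
      have h1 : Ex v ([] : List (Finset (V × Bool))) R (ℓ + 1) = ∅ := by
        rw [Finset.eq_empty_iff_forall_notMem]
        intro M hM
        exact (H_mem_Ex.1 hM) ⟨R, subset_rfl, Nat.le_add_right _ _, fun C hC => by simp at hC⟩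
      rw [h1]
      simp only [Finset.card_empty, Nat.cast_zero]
      positivity
    | cons C 𝒞 ihC =>
      have hlen : (C :: 𝒞).length = 𝒞.length + 1 := rfl
      rw [hlen]
      have hxl : 0 < x ^ ℓ := pow_pos hx _
      have hdl : 0 < (1 - p * x) ^ 𝒞.length := pow_pos hd _
      by_cases hcase : K + 2 ≤ (ng v R C).card
      · obtain ⟨U, hU, hUc⟩ := Finset.exists_subset_card_eq hcase
        have h1 := Finset.card_le_card (H_sub1 (𝒞 := 𝒞) (ℓ := ℓ) hU hUc)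
        have h2 := h1.trans (Finset.card_union_le _ _)
        have h3 := card_on U (Ex v (C :: 𝒞) (R ∪ U.image Prod.fst) ℓ) (fun M hM M' h => H_inv M hM M' h)
        have h4 := ih (C :: 𝒞) (R ∪ U.image Prod.fst)
        rw [hlen] at h4
        set e : ℝ := ((Ex v (C :: 𝒞) (R ∪ U.image Prod.fst) ℓ).card : ℝ) with he
        set g := ((Ex v (C :: 𝒞) (R ∪ U.image Prod.fst) ℓ).filter (fun M => ∀ u ∈ U, On M u)).card with hg
        have h5 : (g : ℝ) ≤ p * e := by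
          rw [hUc] at h3
          have h6 : (g : ℝ) * (2 ^ r) ^ (K + 2) ≤ (s : ℝ) ^ (K + 2) * e := by
            rw [he]
            exact_mod_cast h3
          rw [hp, div_pow, div_mul_eq_mul_div, le_div_iff₀ (by positivity)]
          exact h6
        have h7 : ((Ex v (C :: 𝒞) R (ℓ + 1)).card : ℝ) ≤ (Ex v 𝒞 R (ℓ + 1)).card + g := by
          exact_mod_cast h2
        refine h7.trans ((add_le_add ihC (h5.trans (mul_le_mul_of_nonneg_left h4 hp0))).trans (le_of_eq ?_))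
        rw [pow_succ x ℓ, pow_succ (1 - p * x) 𝒞.length]
        exact H_alg hxl.ne' hx.ne' hdl.ne' hd.ne'
      · have h1 := Finset.card_le_card (H_sub2 (v := v) (𝒞 := 𝒞) (R := R) (ℓ := ℓ + 1) (C := C) (by omega))
        have h2 : ((Ex v (C :: 𝒞) R (ℓ + 1)).card : ℝ) ≤ (Ex v 𝒞 R (ℓ + 1)).card := by exact_mod_cast h1
        refine h2.trans (ihC.trans ?_)
        refine div_le_div_of_nonneg_left hn0 (by positivity) ?_
        rw [pow_succ (1 - p * x) 𝒞.length]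
        refine mul_le_mul_of_nonneg_left ?_ (by positivity)
        exact mul_le_of_le_one_right hdl.le hd1

end H4.SX
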