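import Pool.Agent.H4.SX.E
import Pool.Agent.H4.SX.F
import Pool.Agent.H4.SX.H
import Pool.Agent.H4.SL.Ha

/-!
# Row SlXi (about 100 lines): numerical facts

`k = K + 1`. PROOFS.
`hr_of`: `(K+4) s ≤ r` and `K ≥ 1` give `2^r ≥ 2^(5s)`; `400 ≤ 2^9 ≤ 2^s`, `s ≤ 2^s`, `2^(2K+1) ≤ 2^s`, so the left side is `≤ 2^(4 s)`.
`num_b`: `s (|P|/tot) ≤ s B/5`; with `log 5 ≤ 1.61` (`5 < exp 1.61`; or use only `log 5 ≤ 2`: `exp 2 ≥ 1 + 2 + 2 = 5`, `Real.quadratic_le_exp_of_nonneg`), `log 2 ≥ 0.693` (`Real.log_two_gt_d9`), `log 2 ≤ 0.7`: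
`B (0.7 + 2) + B s (1/5 + 1/20 - 0.3465) ≤ -B s/64` as `2.7 ≤ 0.0808 s` (`s ≥ 200 k ≥ 400`), and `1/64 ≥ 1/(32 k)`.
`num_a`: `p = (s/2^r)^(K+2)`, `x = 4^s`, `ℓ = B/(4(K+2))` (natural division) `≥ B/(8(K+2))` as `B ≥ 4(K+2)` (`Nat.div_add_mod`, or `ℓ ≥ 1` and `B < 4(K+2)(ℓ+1) ≤ 8 (K+2) ℓ`). `s^(K+2) ≤ 2^s`, `r ≥ (K+4) s`:
`p x = s^(K+2) 4^s/2^(r(K+2)) ≤ 2^(3 s)/2^((K+4)(K+2) s) ≤ 1/2`; `p x g ≤ s^(K+2) 4^s 2^(-r(K+2)) (1/5) B 2^((s+r)(K+1)) ≤ (B/5) 2^(s + 2 s + s (K+1) - r) ≤ B/5` [`tot K s r ≤ 2^((s+r)(K+1))`; `3 s + s (K+1) = (K+4) s ≤ r`].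
`(1 - px)^g ≥ exp (-2 p x g) ≥ exp (-B)` (`1 - y ≥ exp (-2 y)` for `0 ≤ y ≤ 1/2`: `exp (-2y) ≤ 1/(1+2y) ≤ 1 - y`), `x^ℓ = exp (ℓ s log 4) ≥ exp (1.386 s B/(8 (K+2)))`. So
`1/(x^ℓ (1-px)^g) ≤ exp (B - 0.17325 s B/(K+2))`, and `B - 0.17325 s B/(K+2) ≤ -B s/(32 k)`: `K + 2 ≤ 1.5 k`, so `0.17325/(K+2) ≥ 0.1155/k`, and `1 ≤ 0.0842 s/k`.
-/

set_option autoImplicit false

namespace H4.SX

open H40.SP H4.SL

variable {K s r B : ℕ}

theorem hr_of (hK : 1 ≤ K) (hs : 200 * (K + 1) ≤ s) (hr : (K + 4) * s ≤ r) :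
    400 * s * 2 ^ s * 2 ^ (2 * K + 1) ≤ 2 ^ r := by
  have h1 : 400 ≤ 2 ^ s := by
    calc 400 ≤ 2 ^ 9 := by norm_num
      _ ≤ 2 ^ s := Nat.pow_le_pow_right (by norm_num) (by omega)
  have h2 : s ≤ 2 ^ s := Nat.lt_two_pow_self.le
  have h3 : 2 ^ (2 * K + 1) ≤ 2 ^ s := Nat.pow_le_pow_right (by norm_num) (by omega)
  have h4 : 4 * s ≤ r := le_trans (Nat.mul_le_mul_right s (by omega)) hr
  calc 400 * s * 2 ^ s * 2 ^ (2 * K + 1) ≤ 2 ^ s * 2 ^ s * 2 ^ s * 2 ^ s := by gcongr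
    _ = 2 ^ (4 * s) := by rw [← pow_add, ← pow_add, ← pow_add]; congr 1; ring
    _ ≤ 2 ^ r := Nat.pow_le_pow_right (by norm_num) h4

theorem SlXi_tot : 0 < tot K s r := by
  unfold tot
  positivity

theorem SlXi_tot_le : tot K s r ≤ 2 ^ ((s + r) * (K + 1)) := by
  unfold tot
  rw [← pow_add]
  refine pow_le_pow_right₀ (by norm_num) ?_
  have h1 : (s + r - 1) * K ≤ (s + r) * K := Nat.mul_le_mul_right K (by omega)
  calc s + r + (s + r - 1) * K ≤ s + r + (s + r) * K := by omega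
    _ = (s + r) * (K + 1) := by ring

theorem SlXi_log5 : Real.log 5 ≤ 2 := by
  rw [Real.log_le_iff_le_exp (by norm_num)]
  have h := Real.quadratic_le_exp_of_nonneg (x := 2) (by norm_num)
  linarith

theorem num_b (hK : 1 ≤ K) (hs : 200 * (K + 1) ≤ s) {P : ℝ} (hP : P ≤ 1 / 5 * B * tot K s r) :
    (2 : ℝ) ^ B * Real.exp (B * Real.log 5 + s * (P / tot K s r + B / 20) - B * s / 2 * Real.log 2) ≤
      Real.exp (-((B : ℝ) * s) / (32 * ((K : ℝ) + 1))) := by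
  have hK' : (1 : ℝ) ≤ K := by exact_mod_cast hK
  have hs' : 200 * ((K : ℝ) + 1) ≤ s := by exact_mod_cast hs
  have hs4 : (400 : ℝ) ≤ s := by linarith
  have hB : (0 : ℝ) ≤ B := Nat.cast_nonneg B
  have ht := SlXi_tot (K := K) (s := s) (r := r)
  have h1 : P / tot K s r ≤ B / 5 := by
    rw [div_le_iff₀ ht]
    linarith
  have h2 : (2 : ℝ) ^ B = Real.exp (B * Real.log 2) := by
    rw [mul_comm, Real.exp_mul, Real.exp_log (by norm_num), Real.rpow_natCast]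
  rw [h2, ← Real.exp_add]
  apply Real.exp_le_exp.2
  have l1 := Real.log_two_lt_d9
  have l2 := Real.log_two_gt_d9
  have l5 := SlXi_log5
  have h3 : (s : ℝ) * (P / tot K s r + B / 20) ≤ s * (B / 5 + B / 20) :=
    mul_le_mul_of_nonneg_left (by linarith) (by linarith)
  have hBs : 0 ≤ (B : ℝ) * s := mul_nonneg hB (by linarith)
  have h4 : -((B : ℝ) * s) / 64 ≤ -((B : ℝ) * s) / (32 * ((K : ℝ) + 1)) := by
    rw [neg_div, neg_div, neg_le_neg_iff]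
    exact div_le_div_of_nonneg_left hBs (by norm_num) (by linarith)
  refine le_trans ?_ h4
  have h5 : (B : ℝ) * Real.log 2 ≤ B * 0.7 := mul_le_mul_of_nonneg_left (by linarith) hB
  have h6 : (B : ℝ) * Real.log 5 ≤ B * 2 := mul_le_mul_of_nonneg_left l5 hB
  have h7 : (B : ℝ) * s / 2 * 0.693 ≤ B * s / 2 * Real.log 2 :=
    mul_le_mul_of_nonneg_left (by linarith) (by linarith)
  have h8 : (B : ℝ) * 400 ≤ B * s := mul_le_mul_of_nonneg_left hs4 hB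
  nlinarith

theorem SlXi_px (hK : 1 ≤ K) (hs : 200 * (K + 1) ≤ s) (hs2 : s ^ (K + 2) ≤ 2 ^ s) (hr : (K + 4) * s ≤ r) :
    ((s : ℝ) / 2 ^ r) ^ (K + 2) * 4 ^ s ≤ 2 ^ (3 * s) / 2 ^ (r * (K + 2)) ∧
    (2 : ℝ) ^ (3 * s) / 2 ^ (r * (K + 2)) ≤ 1 / 2 := by
  constructor
  · rw [div_pow, ← pow_mul, div_mul_eq_mul_div]
    have h1 : (s : ℝ) ^ (K + 2) ≤ 2 ^ s := by exact_mod_cast hs2
    have h2 : (4 : ℝ) ^ s = 2 ^ (2 * s) := by rw [pow_mul]; norm_num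
    have h3 : (2 : ℝ) ^ (3 * s) = 2 ^ s * 2 ^ (2 * s) := by rw [← pow_add]; congr 1; ring
    rw [h2, h3]
    gcongr
  · have h1 : 3 * s + 1 ≤ r * (K + 2) := by
      have h2 : 5 * s ≤ r := le_trans (Nat.mul_le_mul_right s (by omega)) hr
      have h3 : r * 1 ≤ r * (K + 2) := Nat.mul_le_mul_left r (by omega)
      omega
    rw [div_le_iff₀ (by positivity)]
    calc (2 : ℝ) ^ (3 * s) = 1 / 2 * 2 ^ (3 * s + 1) := by rw [pow_succ]; ring
      _ ≤ 1 / 2 * 2 ^ (r * (K + 2)) := by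
        refine mul_le_mul_of_nonneg_left (pow_le_pow_right₀ (by norm_num) h1) (by norm_num)

theorem SlXi_exp {y : ℝ} (h0 : 0 ≤ y) (h1 : y ≤ 1 / 2) : Real.exp (-(2 * y)) ≤ 1 - y := by
  have h2 := Real.add_one_le_exp (2 * y)
  rw [Real.exp_neg]
  calc (Real.exp (2 * y))⁻¹ ≤ (2 * y + 1)⁻¹ := inv_anti₀ (by linarith) h2
    _ ≤ 1 - y := by
      rw [inv_le_iff_one_le_mul₀ (by linarith)]
      nlinarith

theorem num_a (hK : 1 ≤ K) (hs : 200 * (K + 1) ≤ s) (hs2 : s ^ (K + 2) ≤ 2 ^ s) (hr : (K + 4) * s ≤ r)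
    (hB : 4 * (K + 2) ≤ B) {g : ℕ} (hg : (g : ℝ) ≤ 1 / 5 * B * tot K s r) :
    ((s : ℝ) / 2 ^ r) ^ (K + 2) * 4 ^ s < 1 ∧
    1 / (((4 : ℝ) ^ s) ^ (B / (4 * (K + 2))) * (1 - ((s : ℝ) / 2 ^ r) ^ (K + 2) * 4 ^ s) ^ g) ≤
      Real.exp (-((B : ℝ) * s) / (32 * ((K : ℝ) + 1))) := by
  obtain ⟨p1, p2⟩ := SlXi_px hK hs hs2 hr
  obtain ⟨y, hy⟩ : ∃ y : ℝ, y = ((s : ℝ) / 2 ^ r) ^ (K + 2) * 4 ^ s := ⟨_, rfl⟩
  rw [← hy] at p1 ⊢
  have hy0 : 0 ≤ y := by rw [hy]; positivity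
  have hy2 : y ≤ 1 / 2 := p1.trans p2
  refine ⟨by linarith, ?_⟩
  have hK' : (1 : ℝ) ≤ K := by exact_mod_cast hK
  have hs' : 200 * ((K : ℝ) + 1) ≤ s := by exact_mod_cast hs
  have hB0 : (0 : ℝ) ≤ B := Nat.cast_nonneg B
  -- the power of 1 - y
  have hyg : y * g ≤ B / 5 := by
    have h1 : (g : ℝ) ≤ B / 5 * 2 ^ ((s + r) * (K + 1)) := by
      refine hg.trans ?_
      have h2 := SlXi_tot_le (K := K) (s := s) (r := r)
      calc 1 / 5 * (B : ℝ) * tot K s r ≤ 1 / 5 * B * 2 ^ ((s + r) * (K + 1)) :=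
            mul_le_mul_of_nonneg_left h2 (by positivity)
        _ = _ := by ring
    have h3 : 3 * s + (s + r) * (K + 1) ≤ r * (K + 2) := by
      have h4 : 3 * s + (s + r) * (K + 1) = (K + 4) * s + r * (K + 1) := by ring
      have h5 : r * (K + 2) = r + r * (K + 1) := by ring
      omega
    calc y * g ≤ (2 ^ (3 * s) / 2 ^ (r * (K + 2))) * (B / 5 * 2 ^ ((s + r) * (K + 1))) :=
          mul_le_mul p1 h1 (Nat.cast_nonneg g) (by positivity)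
      _ = B / 5 * (2 ^ (3 * s + (s + r) * (K + 1)) / 2 ^ (r * (K + 2))) := by
          rw [pow_add]; ring
      _ ≤ B / 5 * 1 := by
          refine mul_le_mul_of_nonneg_left ?_ (by positivity)
          rw [div_le_one (by positivity)]
          exact pow_le_pow_right₀ (by norm_num) h3
      _ = B / 5 := by ring
  have hpow : Real.exp (-B) ≤ (1 - y) ^ g := by
    calc Real.exp (-(B : ℝ)) ≤ Real.exp (g * (-(2 * y))) := by
          apply Real.exp_le_exp.2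
          nlinarith
      _ = Real.exp (-(2 * y)) ^ g := by rw [← Real.exp_nat_mul]
      _ ≤ (1 - y) ^ g := pow_le_pow_left₀ (Real.exp_pos _).le (SlXi_exp hy0 hy2) g
  -- the power of 4
  have hl : (B : ℝ) / (8 * ((K : ℝ) + 2)) ≤ ((B / (4 * (K + 2)) : ℕ) : ℝ) := by
    have h1 : 1 ≤ B / (4 * (K + 2)) := (Nat.one_le_div_iff (by omega)).2 hB
    have h2 : B < 4 * (K + 2) * (B / (4 * (K + 2)) + 1) := Nat.lt_mul_div_succ B (by omega)
    have h3 : 4 * (K + 2) * (B / (4 * (K + 2)) + 1) ≤ 8 * (K + 2) * (B / (4 * (K + 2))) := by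
      calc 4 * (K + 2) * (B / (4 * (K + 2)) + 1) ≤ 4 * (K + 2) * (B / (4 * (K + 2)) + B / (4 * (K + 2))) :=
            Nat.mul_le_mul_left _ (by omega)
        _ = 8 * (K + 2) * (B / (4 * (K + 2))) := by ring
    have h4 : B ≤ 8 * (K + 2) * (B / (4 * (K + 2))) := by omega
    have h5 : (B : ℝ) ≤ 8 * ((K : ℝ) + 2) * ((B / (4 * (K + 2)) : ℕ) : ℝ) := by exact_mod_cast h4
    rw [div_le_iff₀ (by positivity)]
    linarith
  have h4pow : Real.exp (1.386 * s * (B / (8 * ((K : ℝ) + 2)))) ≤ ((4 : ℝ) ^ s) ^ (B / (4 * (K + 2))) := by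
    have l2 := Real.log_two_gt_d9
    have h1 : ((4 : ℝ) ^ s) ^ (B / (4 * (K + 2))) = Real.exp (Real.log 4 * s * ((B / (4 * (K + 2)) : ℕ) : ℝ)) := by
      rw [Real.exp_mul, Real.exp_mul, Real.exp_log (by norm_num), Real.rpow_natCast, Real.rpow_natCast]
    have h2 : Real.log 4 = 2 * Real.log 2 := by
      rw [show (4 : ℝ) = 2 ^ 2 by norm_num, Real.log_pow]
      norm_num
    rw [h1, h2]
    apply Real.exp_le_exp.2
    have h3 : 1.386 * (s : ℝ) ≤ 2 * Real.log 2 * s := by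
      refine mul_le_mul_of_nonneg_right (by linarith) (Nat.cast_nonneg s)
    exact mul_le_mul h3 hl (by positivity) (by positivity)
  have hpos : 0 < Real.exp (1.386 * s * (B / (8 * ((K : ℝ) + 2)))) * Real.exp (-B) :=
    mul_pos (Real.exp_pos _) (Real.exp_pos _)
  calc 1 / (((4 : ℝ) ^ s) ^ (B / (4 * (K + 2))) * (1 - y) ^ g)
      ≤ 1 / (Real.exp (1.386 * s * (B / (8 * ((K : ℝ) + 2)))) * Real.exp (-B)) := by
        refine one_div_le_one_div_of_le hpos ?_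
        exact mul_le_mul h4pow hpow (Real.exp_pos _).le (by positivity)
    _ = Real.exp (-(1.386 * s * (B / (8 * ((K : ℝ) + 2))) + -B)) := by
        rw [← Real.exp_add, one_div, ← Real.exp_neg]
    _ ≤ Real.exp (-((B : ℝ) * s) / (32 * ((K : ℝ) + 1))) := by
        apply Real.exp_le_exp.2
        have hk1 : 0 < (K : ℝ) + 1 := by linarith
        have hk2 : 0 < (K : ℝ) + 2 := by linarith
        have e1 : -(1.386 * (s : ℝ) * (B / (8 * ((K : ℝ) + 2))) + -B) = B * (1 - 0.17325 * s / ((K : ℝ) + 2)) := by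
          field_simp
          ring
        have e2 : -((B : ℝ) * s) / (32 * ((K : ℝ) + 1)) = B * (-(s / (32 * ((K : ℝ) + 1)))) := by ring
        rw [e1, e2]
        refine mul_le_mul_of_nonneg_left ?_ hB0
        have h1 : 0.1155 * (s : ℝ) / ((K : ℝ) + 1) ≤ 0.17325 * s / ((K : ℝ) + 2) := by
          rw [div_le_div_iff₀ hk1 hk2]
          nlinarith [Nat.cast_nonneg (α := ℝ) s]
        have h2 : 200 ≤ (s : ℝ) / ((K : ℝ) + 1) := by
          rw [le_div_iff₀ hk1]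
          exact hs'
        have h3 : (s : ℝ) / (32 * ((K : ℝ) + 1)) = (s / ((K : ℝ) + 1)) / 32 := by
          field_simp
        have h4 : 0.1155 * (s : ℝ) / ((K : ℝ) + 1) = 0.1155 * (s / ((K : ℝ) + 1)) := by ring
        rw [h3]
        rw [h4] at h1
        linarith

end H4.SX
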