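import Pool.Agent.H4.SX.I

/-!
# Row SlXj (about 130 lines): the total number of accepted states, and `¬ Sparse`

PROOF of `sum_acc`. `n = Fintype.card (Fin B → Fr K s r)`, `k = K + 1`, `e = exp (-(B s)/(32 k))`, `ℓ = B/(4(K+2))` (natural division), `𝒞 = G.toList`, `g = G.card = 𝒞.length`.
(a) `E₁ = Ex v 𝒞 ∅ ℓ`: `|E₁| ≤ n e` by `card_Ex` (row H; `x = 4^s`) and `num_a`. (b) `E₂ = ⋃_(R : Finset (Fin B)) {M : B s ≤ 2 hits (sr v R G) M}`: `|E₂| ≤ 2^B n exp (..) ≤ n e` by `hits_tail`, `card_sr_le`, `adm_sr`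
(row F) and `num_b` (monotone in `P.card`: `P.card ≤ G.card`); `Finset.card_biUnion_le`, `Fintype.card_finset`. (c) `M ∉ E₁ ∪ E₂`: there is `R` with `|R| ≤ ℓ (K+2) ≤ B/4` (`∅.card = 0`) covering `G`, and
`2 hits (sr v R G) M < B s`; `card_acc_le` (row E): `|acc v M G| ≤ k^(B s) exp (-(B s - B s/4 - B s/2)/(8 k)) = k^(B s) e`. For all `M`: `|acc v M G| ≤ k^(B s)` (`Finset.card_le_univ`). So
`∑_M |acc v M G| ≤ |E₁| k^(B s) + |E₂| k^(B s) + n k^(B s) e ≤ 3 n k^(B s) e`.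
PROOF of `not_sparse`. Let `𝒢` be as in `Sparse`. For every `(M, j)`: `Sat (hf v) (big v M j ∅)` (`sat_big`), so some `G ∈ 𝒢` accepts it: `n k^(B s) = ∑_M |univ| ≤ ∑_(G ∈ 𝒢) ∑_M |acc v M G|`
(`Finset.card_biUnion_le`). Every `G ∈ 𝒢` satisfies `hG` (`Sat G a → Sat (hf v) a`) and `G.card ≤ L ≤ B tot/5`, so `n k^(B s) ≤ |𝒢| 3 n k^(B s) e ≤ m 3 n k^(B s) e`, and `n k^(B s) > 0`: `3 m e ≥ 1`, against `hm`.
-/

set_option autoImplicit false

namespace H4.SX

open H40.SP H4.SL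

variable {V : Type} [DecidableEq V] {K s r B : ℕ} {v : Fin B → Fin (K + 1) → Ix s r → V} {G : Fml V}

theorem J_sum {α : Type*} [Fintype α] (E₁ E₂ : Finset α) (f : α → ℝ) {k e n : ℝ} (hk : 0 ≤ k)
    (he : 0 ≤ e) (hn : (Fintype.card α : ℝ) = n) (h1 : (E₁.card : ℝ) ≤ n * e)
    (h2 : (E₂.card : ℝ) ≤ n * e) (h : ∀ M, f M ≤ k) (h' : ∀ M, M ∉ E₁ → M ∉ E₂ → f M ≤ k * e) :
    ∑ M, f M ≤ 3 * n * k * e := by
  classical
  have hs : ∀ E : Finset α, ∑ M, (if M ∈ E then (1 : ℝ) else 0) = E.card := by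
    intro E
    rw [Finset.sum_ite_mem, Finset.univ_inter, Finset.sum_const, nsmul_eq_mul, mul_one]
  have hp : ∀ M, f M ≤ k * ((if M ∈ E₁ then (1 : ℝ) else 0) + (if M ∈ E₂ then (1 : ℝ) else 0) + e) := by
    intro M
    by_cases m1 : M ∈ E₁
    · refine (h M).trans ?_
      rw [if_pos m1]
      have : (0 : ℝ) ≤ if M ∈ E₂ then (1 : ℝ) else 0 := by split_ifs <;> norm_num
      nlinarith
    · by_cases m2 : M ∈ E₂
      · refine (h M).trans ?_
        rw [if_neg m1, if_pos m2]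
        nlinarith
      · refine (h' M m1 m2).trans ?_
        rw [if_neg m1, if_neg m2, zero_add, zero_add]
  refine (Finset.sum_le_sum fun M _ => hp M).trans ?_
  rw [← Finset.mul_sum, Finset.sum_add_distrib, Finset.sum_add_distrib, hs, hs, Finset.sum_const,
    nsmul_eq_mul, Finset.card_univ, hn]
  have : (E₁.card : ℝ) + E₂.card + n * e ≤ 3 * (n * e) := by linarith
  calc k * ((E₁.card : ℝ) + E₂.card + n * e) ≤ k * (3 * (n * e)) := mul_le_mul_of_nonneg_left this hk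
    _ = 3 * n * k * e := by ring

omit [DecidableEq V] in
theorem J_acc (M : Fin B → Fr K s r) : ((acc v M G).card : ℝ) ≤ ((K : ℝ) + 1) ^ (B * s) := by
  have h := Finset.card_le_univ (acc v M G)
  rw [Fintype.card_fun, Fintype.card_fin, Fintype.card_fin] at h
  exact_mod_cast h

theorem sum_acc (hK : 1 ≤ K) (hs : 200 * (K + 1) ≤ s) (hs2 : s ^ (K + 2) ≤ 2 ^ s) (hr : (K + 4) * s ≤ r)
    (hB : 4 * (K + 2) ≤ B) (hv : InjV v) (hG : ∀ a, Sat G a → Sat (hf v) a)
    (hL : (G.card : ℝ) ≤ 1 / 5 * B * tot K s r) :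
    ∑ M : Fin B → Fr K s r, ((acc v M G).card : ℝ) ≤
      3 * Fintype.card (Fin B → Fr K s r) * ((K : ℝ) + 1) ^ (B * s) *
        Real.exp (-((B : ℝ) * s) / (32 * ((K : ℝ) + 1))) := by
  classical
  obtain ⟨n, hn⟩ : ∃ n : ℝ, (Fintype.card (Fin B → Fr K s r) : ℝ) = n := ⟨_, rfl⟩
  obtain ⟨e, he⟩ : ∃ e : ℝ, Real.exp (-((B : ℝ) * s) / (32 * ((K : ℝ) + 1))) = e := ⟨_, rfl⟩
  have he0 : 0 < e := he ▸ Real.exp_pos _
  have hn0 : 0 ≤ n := hn ▸ Nat.cast_nonneg _
  obtain ⟨ha1, ha2⟩ := num_a hK hs hs2 hr hB hL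
  have hb := num_b (B := B) (r := r) hK hs hL
  rw [he] at ha2 hb
  have htot : 0 < tot K s r := by unfold tot; positivity
  have hs1 : 1 ≤ s := by omega
  rw [hn, he]
  refine J_sum (Ex v G.toList ∅ (B / (4 * (K + 2)))) (Finset.univ.biUnion fun R : Finset (Fin B) =>
    Finset.univ.filter (fun M : Fin B → Fr K s r => B * s ≤ 2 * hits (sr v R G) M)) _ (by positivity)
    he0.le hn ?_ ?_ (fun M => J_acc M) ?_
  · have h1 := card_Ex (v := v) (x := (4 : ℝ) ^ s) (by positivity) rfl ha1 (B / (4 * (K + 2))) G.toList ∅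
    rw [hn, Finset.length_toList] at h1
    refine h1.trans ?_
    rw [div_eq_mul_one_div]
    exact mul_le_mul_of_nonneg_left ha2 hn0
  · have h1 : ∀ R : Finset (Fin B), ((Finset.univ.filter (fun M : Fin B → Fr K s r =>
        B * s ≤ 2 * hits (sr v R G) M)).card : ℝ) ≤ n * Real.exp (B * Real.log 5 +
        s * ((G.card : ℝ) / tot K s r + B / 20) - B * s / 2 * Real.log 2) := by
      intro R
      refine (hits_tail hK hs1 (hr_of hK hs hr) (sr v R G) (adm_sr R)).trans ?_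
      rw [hn]
      refine mul_le_mul_of_nonneg_left (Real.exp_le_exp.2 ?_) hn0
      have h2 : ((sr v R G).card : ℝ) / tot K s r ≤ (G.card : ℝ) / tot K s r :=
        div_le_div_of_nonneg_right (by exact_mod_cast card_sr_le R) htot.le
      have h3 : (s : ℝ) * (((sr v R G).card : ℝ) / tot K s r + B / 20) ≤
          s * ((G.card : ℝ) / tot K s r + B / 20) :=
        mul_le_mul_of_nonneg_left (by linarith) (Nat.cast_nonneg _)
      linarith
    have h4 : ((Finset.univ.biUnion fun R : Finset (Fin B) => Finset.univ.filter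
        (fun M : Fin B → Fr K s r => B * s ≤ 2 * hits (sr v R G) M)).card : ℝ) ≤
        ∑ R : Finset (Fin B), ((Finset.univ.filter (fun M : Fin B → Fr K s r =>
        B * s ≤ 2 * hits (sr v R G) M)).card : ℝ) := by
      exact_mod_cast Finset.card_biUnion_le
    refine h4.trans ((Finset.sum_le_sum fun R _ => h1 R).trans ?_)
    rw [Finset.sum_const, nsmul_eq_mul, Finset.card_univ, Fintype.card_finset, Fintype.card_fin]
    calc (((2 : ℕ) ^ B : ℕ) : ℝ) * (n * Real.exp (B * Real.log 5 +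
          s * ((G.card : ℝ) / tot K s r + B / 20) - B * s / 2 * Real.log 2))
        = n * ((2 : ℝ) ^ B * Real.exp (B * Real.log 5 +
          s * ((G.card : ℝ) / tot K s r + B / 20) - B * s / 2 * Real.log 2)) := by
          push_cast
          ring
      _ ≤ n * e := mul_le_mul_of_nonneg_left hb hn0
  · intro M m1 m2
    have m1' : ∃ R' : Finset (Fin B), ∅ ⊆ R' ∧ R'.card ≤ (∅ : Finset (Fin B)).card +
        B / (4 * (K + 2)) * (K + 2) ∧
        ∀ C ∈ G.toList, (∀ u ∈ ng v ∅ C, On M u) → (ng v R' C).card ≤ K + 1 := by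
      by_contra hcon
      exact m1 (by
        unfold Ex
        rw [Finset.mem_filter]
        exact ⟨Finset.mem_univ _, hcon⟩)
    obtain ⟨R, -, hR, hC⟩ := m1'
    have h2 : ¬ (B * s ≤ 2 * hits (sr v R G) M) := by
      intro hcon
      exact m2 (Finset.mem_biUnion.2 ⟨R, Finset.mem_univ _, Finset.mem_filter.2
        ⟨Finset.mem_univ _, hcon⟩⟩)
    refine (card_acc_le hK hv hG M R (fun C hCG => hC C (Finset.mem_toList.2 hCG))).trans ?_
    refine mul_le_mul_of_nonneg_left ?_ (by positivity)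
    rw [← he, Real.exp_le_exp]
    have h3 : 4 * R.card ≤ B := by
      rw [Finset.card_empty, zero_add] at hR
      have h5 : B / (4 * (K + 2)) * (4 * (K + 2)) ≤ B := Nat.div_mul_le_self _ _
      have h6 : B / (4 * (K + 2)) * (4 * (K + 2)) = 4 * (B / (4 * (K + 2)) * (K + 2)) := by ring
      omega
    have h3' : (4 : ℝ) * R.card ≤ B := by exact_mod_cast h3
    have h4' : (2 : ℝ) * hits (sr v R G) M ≤ B * s := by exact_mod_cast (not_le.1 h2).le
    have h7 : (R.card : ℝ) * s ≤ B * s / 4 := by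
      have := mul_le_mul_of_nonneg_right h3' (Nat.cast_nonneg (α := ℝ) s)
      linarith
    have hK0 : (0 : ℝ) < (K : ℝ) + 1 := by positivity
    rw [div_le_div_iff₀ (by positivity) (by positivity)]
    have h8 : (B : ℝ) * s / 4 ≤ (B : ℝ) * s - R.card * s - hits (sr v R G) M := by linarith
    nlinarith

theorem not_sparse (hK : 1 ≤ K) (hs : 200 * (K + 1) ≤ s) (hs2 : s ^ (K + 2) ≤ 2 ^ s) (hr : (K + 4) * s ≤ r)
    (hB : 4 * (K + 2) ≤ B) (hv : InjV v) {m L : ℝ}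
    (hm : 3 * m < Real.exp ((B : ℝ) * s / (32 * ((K : ℝ) + 1)))) (hL : L ≤ 1 / 5 * B * tot K s r) (w : ℕ) :
    ¬ Sparse (hf v) w m L := by
  classical
  rintro ⟨𝒢, h1, h2, h3⟩
  obtain ⟨n, hn⟩ : ∃ n : ℝ, (Fintype.card (Fin B → Fr K s r) : ℝ) = n := ⟨_, rfl⟩
  have hn0 : 0 < n := by
    rw [← hn]
    exact_mod_cast Fintype.card_pos
  obtain ⟨c, hc⟩ : ∃ c : ℝ, (B : ℝ) * s / (32 * ((K : ℝ) + 1)) = c := ⟨_, rfl⟩
  obtain ⟨k, hk⟩ : ∃ k : ℝ, ((K : ℝ) + 1) ^ (B * s) = k := ⟨_, rfl⟩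
  have hk0 : 0 < k := by rw [← hk]; positivity
  have hsum : ∀ G ∈ 𝒢, ∑ M : Fin B → Fr K s r, ((acc v M G).card : ℝ) ≤
      3 * n * k * Real.exp (-c) := by
    intro G hG
    have h4 := sum_acc hK hs hs2 hr hB hv (fun a ha => (h3 a).2 ⟨G, hG, ha⟩)
      (((h2 G hG).2).trans hL)
    rw [hn, hk, neg_div, hc] at h4
    exact h4
  have hcov : ∀ M : Fin B → Fr K s r, k ≤ ∑ G ∈ 𝒢, ((acc v M G).card : ℝ) := by
    intro M
    have h5 : (Finset.univ : Finset (Fin (B * s) → Fin (K + 1))) ⊆ 𝒢.biUnion (fun G => acc v M G) := by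
      intro j _
      obtain ⟨G, hG, hs⟩ := (h3 _).1 (sat_big hv M j)
      refine Finset.mem_biUnion.2 ⟨G, hG, ?_⟩
      unfold acc
      rw [Finset.mem_filter]
      exact ⟨Finset.mem_univ _, hs⟩
    have h6 := (Finset.card_le_card h5).trans Finset.card_biUnion_le
    rw [Finset.card_univ, Fintype.card_fun, Fintype.card_fin, Fintype.card_fin] at h6
    rw [← hk]
    exact_mod_cast h6
  have h7 : n * k ≤ ∑ G ∈ 𝒢, ∑ M : Fin B → Fr K s r, ((acc v M G).card : ℝ) := by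
    rw [Finset.sum_comm]
    refine le_trans (le_of_eq ?_) (Finset.sum_le_sum fun M _ => hcov M)
    rw [Finset.sum_const, nsmul_eq_mul, Finset.card_univ, hn]
  have h8 : n * k ≤ m * (3 * n * k * Real.exp (-c)) := by
    refine h7.trans ((Finset.sum_le_sum hsum).trans ?_)
    rw [Finset.sum_const, nsmul_eq_mul]
    exact mul_le_mul_of_nonneg_right h1 (by positivity)
  rw [hc] at hm
  have h9 : 3 * m * Real.exp (-c) < 1 := by
    rw [Real.exp_neg, ← div_eq_mul_inv, div_lt_one (Real.exp_pos _)]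
    exact hm
  have h10 : n * k * (3 * m * Real.exp (-c)) < n * k * 1 :=
    mul_lt_mul_of_pos_left h9 (mul_pos hn0 hk0)
  linarith

end H4.SX
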