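import Pool.Agent.H4.SX.J
import Pool.Agent.H4.SL.Hc

/-!
# Row SlXk (about 170 lines): the choice of the parameters

PROOF. `k = K + 1`, `C = 2^16`. `exists_pow_le`: `s^(K+2) ≤ 2^s` for all large `s` (e.g. `tendsto_pow_const_div_const_pow_of_one_lt` or
`isLittleO`; or `s^(K+2)/2^s → 0`). Let `s₀ ≥ 200 k` be such that this holds for all `s ≥ s₀`; `d₀ = (K+5) s₀`; `ε₀ = min 1 (s₀/(128 k² 2^d₀))`. Let `0 < ε ≤ ε₀`. The condition `Q d : 128 k² ε 2^d ≤ d/(K+5)` (natural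
division) holds for `d₀` (`exists_d`: `y = 128 k² ε`), and fails for large `d` (`y 2^d > d`). So there is `d ≥ d₀` with `Q d` and `¬ Q (d+1)` (`Nat.find` of the first failing `d' > d₀`, minus one). `s = d/(K+5)`, `r = d - s`:
`s ≥ s₀`, `s + r = d`, `(K+4) s ≤ r` (`(K+5) s ≤ d`). (i) `128 k² ε 2^d ≤ s`; (ii) `s ≤ (d+1)/(K+5) < 256 k² ε 2^d`; (iii) `d < (K+5)(s+1)`.
`n₀ = 4 (K+2) k 2^d`. For `n ≥ n₀`: `B = n/(k 2^d) ≥ 4(K+2)`, `B k 2^d ≤ n ≤ 2 B k 2^d`; `v` from `exists_injV` (row Hc of H4.SL), `F = hf v`, `width_hf` (H4/SL/Eb). `m = 2^(ε n)`, `L = (log (1/ε)/(C k³ ε))^K n`. Apply `not_sparse`: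
* `hm`: `log 3 + ε n log 2 ≤ 1.1 + 0.7 ε 2 B k 2^d ≤ 1.1 + 1.4 B s/(128 k) < B s/(32 k)`: the difference of the last two terms is `≥ 0.02 B s/k ≥ 4`. (`2^(ε n) = exp (ε n log 2)`, `Real.rpow_def_of_pos`.)
* `hL`: `log (1/ε) ≤ 4 k s`: by (ii) `1/ε ≤ 256 k² 2^d/s ≤ 256 k² 2^d`, `log (256 k²) ≤ s` (`log (256 k²) ≤ 8 log 2 + 2 log k ≤ 6 + 2 k ≤ s`), `d log 2 ≤ 0.7 (K+5)(s+1) ≤ 0.7 (3 k)(s + 1) ≤ 3 k s`. So
`log (1/ε)/(C k³ ε) ≤ 4 s/(2^16 k² ε) ≤ 4 · 256 · 2^d/2^16 = 2^d/64` (by (ii): `s/(k² ε) ≤ 256 2^d`), `L ≤ (2^d/64)^K 2 B k 2^d`, and `(2^(d-1))^K = 32^K (2^d/64)^K ≥ 10 k (2^d/64)^K` (`10 (K+1) ≤ 32^K`), so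
`L ≤ (1/5) B 2^d (2^(d-1))^K = (1/5) B tot K s r` (definition of `tot`: `2^(s+r) * 2^((s+r-1)*K)`).
-/

set_option autoImplicit false

namespace H4.SX

open H40.SP H4.SL

theorem exists_pow_le (K : ℕ) : ∃ s₀ : ℕ, 200 * (K + 1) ≤ s₀ ∧ ∀ s ≥ s₀, s ^ (K + 2) ≤ 2 ^ s := by
  have h := tendsto_pow_const_div_const_pow_of_one_lt (K + 2) (by norm_num : (1 : ℝ) < 2)
  have h1 := (h.eventually (gt_mem_nhds (by norm_num : (0 : ℝ) < 1)))
  obtain ⟨s₀, hs₀⟩ := Filter.eventually_atTop.1 h1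
  refine ⟨max s₀ (200 * (K + 1)), le_max_right _ _, fun s hs => ?_⟩
  have h2 := hs₀ s ((le_max_left _ _).trans hs)
  rw [div_lt_one (by positivity)] at h2
  exact_mod_cast h2.le

theorem exists_d {y : ℝ} (hy : 0 < y) {K d₀ : ℕ} (h : y * 2 ^ d₀ ≤ ((d₀ / (K + 5) : ℕ) : ℝ)) :
    ∃ d : ℕ, d₀ ≤ d ∧ y * 2 ^ d ≤ ((d / (K + 5) : ℕ) : ℝ) ∧ ((d / (K + 5) : ℕ) : ℝ) < y * 2 ^ (d + 1) := by
  classical
  have hex : ∃ d : ℕ, d₀ ≤ d ∧ ((d / (K + 5) : ℕ) : ℝ) < y * 2 ^ d := by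
    have h1 := tendsto_pow_const_div_const_pow_of_one_lt 1 (by norm_num : (1 : ℝ) < 2)
    have h2 := (h1.eventually (gt_mem_nhds hy))
    obtain ⟨d₁, hd₁⟩ := Filter.eventually_atTop.1 h2
    refine ⟨max d₀ d₁, le_max_left _ _, ?_⟩
    have h3 := hd₁ (max d₀ d₁) (le_max_right _ _)
    rw [pow_one, div_lt_iff₀ (by positivity)] at h3
    refine lt_of_le_of_lt ?_ h3
    exact_mod_cast Nat.div_le_self _ _
  have h1 := Nat.find_spec hex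
  have h2 : ∀ m < Nat.find hex, ¬ (d₀ ≤ m ∧ ((m / (K + 5) : ℕ) : ℝ) < y * 2 ^ m) :=
    fun m hm => Nat.find_min hex hm
  set d1 : ℕ := Nat.find hex with hd1
  have h3 : d1 ≠ d₀ := by
    intro h4
    rw [h4] at h1
    linarith [h1.2]
  have h1' := h1.1
  obtain ⟨d, hd⟩ : ∃ d, d1 = d + 1 := ⟨d1 - 1, by omega⟩
  rw [hd] at h1 h1' h2 h3
  refine ⟨d, by omega, ?_, ?_⟩
  · by_contra hcon
    exact h2 d (by omega) ⟨by omega, not_le.1 hcon⟩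
  · refine lt_of_le_of_lt ?_ h1.2
    exact_mod_cast Nat.div_le_div_right (Nat.le_succ d)

private lemma Kx_num {K : ℕ} (hK : 1 ≤ K) : 10 * (K + 1) ≤ 32 ^ K := by
  induction K, hK using Nat.le_induction with
  | base => norm_num
  | succ m _ ih =>
    rw [pow_succ]
    omega

private lemma Kx_log {κ s ε : ℝ} {N : ℝ} {d K : ℕ} (hκ : κ = (K : ℝ) + 1) (hκ2 : 2 ≤ κ)
    (hs : 200 * κ ≤ s) (hε : 0 < ε) (hN : N = 2 ^ d) (hii : s < 256 * κ ^ 2 * ε * N)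
    (hd : (d : ℝ) ≤ ((K : ℝ) + 5) * (s + 1)) : Real.log (1 / ε) ≤ 4 * κ * s := by
  have hκ0 : 0 < κ := by linarith
  have hs0 : 0 < s := by linarith
  have hN0 : 0 < N := by
    rw [hN]
    positivity
  have h1 : 1 / ε ≤ 256 * κ ^ 2 * N := by
    rw [div_le_iff₀ hε]
    have : 1 ≤ s := by linarith
    calc (1 : ℝ) ≤ s := this
      _ ≤ 256 * κ ^ 2 * ε * N := hii.le
      _ = 256 * κ ^ 2 * N * ε := by ring
  have h2 : Real.log (1 / ε) ≤ Real.log (256 * κ ^ 2 * N) := Real.log_le_log (by positivity) h1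
  have h3 : Real.log (256 * κ ^ 2 * N) = 8 * Real.log 2 + 2 * Real.log κ + d * Real.log 2 := by
    rw [Real.log_mul (by positivity) hN0.ne', Real.log_mul (by norm_num) (by positivity),
      show (256 : ℝ) = 2 ^ 8 by norm_num, Real.log_pow, Real.log_pow, hN, Real.log_pow]
    norm_num
  have h4 : Real.log κ ≤ κ - 1 := Real.log_le_sub_one_of_pos hκ0
  have h5 := Real.log_two_lt_d9
  have h6 : 0 < Real.log 2 := Real.log_pos (by norm_num)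
  have h7 : (d : ℝ) * Real.log 2 ≤ ((K : ℝ) + 5) * (s + 1) * 0.7 :=
    mul_le_mul hd (by linarith) h6.le (by rw [show (K : ℝ) = κ - 1 by linarith]; nlinarith)
  have h8 : (K : ℝ) + 5 ≤ 3 * κ := by linarith
  have h9 : ((K : ℝ) + 5) * (s + 1) ≤ 3 * κ * (s + 1) := mul_le_mul_of_nonneg_right h8 (by linarith)
  rw [h3] at h2
  nlinarith

private lemma Kx_L {κ B ε n N lg s : ℝ} {K : ℕ} (hκ : 0 < κ) (hK : 10 * κ ≤ 32 ^ K)
    (hB : 0 < B) (hε : 0 < ε) (hN : 0 < N) (hii : s < 256 * κ ^ 2 * ε * N) (hn0 : 0 ≤ n)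
    (hn : n ≤ 2 * B * κ * N) (hlg0 : 0 ≤ lg) (hlg : lg ≤ 4 * κ * s) :
    (lg / (2 ^ 16 * κ ^ 3 * ε)) ^ K * n ≤ 1 / 5 * B * (N * (N / 2) ^ K) := by
  have h1 : lg / (2 ^ 16 * κ ^ 3 * ε) ≤ N / 64 := by
    rw [div_le_div_iff₀ (by positivity) (by norm_num)]
    have h2 : 4 * κ * s ≤ 4 * κ * (256 * κ ^ 2 * ε * N) :=
      mul_le_mul_of_nonneg_left hii.le (by positivity)
    calc lg * 64 ≤ 4 * κ * (256 * κ ^ 2 * ε * N) * 64 := by linarith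
      _ = N * (2 ^ 16 * κ ^ 3 * ε) := by ring
  have h2 : 0 ≤ lg / (2 ^ 16 * κ ^ 3 * ε) := by positivity
  have e4 : ((N : ℝ) / 2) ^ K = 32 ^ K * (N / 64) ^ K := by
    rw [← mul_pow]
    congr 1
    ring
  rw [e4]
  have h5 : (0 : ℝ) < (N / 64) ^ K := by positivity
  calc (lg / (2 ^ 16 * κ ^ 3 * ε)) ^ K * n
      ≤ (N / 64) ^ K * (2 * B * κ * N) :=
        mul_le_mul (pow_le_pow_left₀ h2 h1 _) hn hn0 h5.le
    _ = (B * N * (N / 64) ^ K / 5) * (10 * κ) := by ring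
    _ ≤ (B * N * (N / 64) ^ K / 5) * 32 ^ K := mul_le_mul_of_nonneg_left hK (by positivity)
    _ = 1 / 5 * B * (N * (32 ^ K * (N / 64) ^ K)) := by ring

private lemma Kx_tot {K s r N : ℕ} (hN : N = 2 ^ (s + r)) (hsr : 1 ≤ s + r) :
    tot K s r = N * (N / 2) ^ K := by
  have e1 : (N : ℝ) = 2 ^ (s + r) := by
    rw [hN]
    push_cast
    rfl
  have e2 : (N : ℝ) / 2 = 2 ^ (s + r - 1) := by
    have e3 : s + r = (s + r - 1) + 1 := by omega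
    rw [e1]
    conv_lhs => rw [e3]
    rw [pow_succ]
    ring
  rw [e2, e1, ← pow_mul]
  rfl

private lemma Kx_m {κ s B ε n N : ℝ} (hκ : 2 ≤ κ) (hs : 200 * κ ≤ s) (hB : 1 ≤ B) (hε : 0 < ε)
    (hi : 128 * κ ^ 2 * ε * N ≤ s) (hn : n ≤ 2 * B * κ * N) :
    3 * (2 : ℝ) ^ (ε * n) < Real.exp (B * s / (32 * κ)) := by
  have hκ0 : 0 < κ := by linarith
  have h2 : 0 < Real.log 2 := Real.log_pos (by norm_num)
  have h3 := Real.log_two_lt_d9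
  have e1 : (2 : ℝ) ^ (ε * n) = Real.exp (ε * n * Real.log 2) := by
    rw [Real.rpow_def_of_pos (by norm_num), mul_comm]
  have h4 : (3 : ℝ) ≤ Real.exp 2 := by
    have := Real.add_one_le_exp (2 : ℝ)
    linarith
  rw [e1]
  have h5 : 3 * Real.exp (ε * n * Real.log 2) ≤ Real.exp (2 + ε * n * Real.log 2) := by
    rw [Real.exp_add]
    exact mul_le_mul_of_nonneg_right h4 (Real.exp_nonneg _)
  refine lt_of_le_of_lt h5 (Real.exp_lt_exp.2 ?_)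
  have h6 : ε * n ≤ B * s / (64 * κ) := by
    rw [le_div_iff₀ (by positivity)]
    have h7 : ε * n ≤ ε * (2 * B * κ * N) := mul_le_mul_of_nonneg_left hn hε.le
    have h8 : ε * n * (64 * κ) ≤ ε * (2 * B * κ * N) * (64 * κ) :=
      mul_le_mul_of_nonneg_right h7 (by positivity)
    have h9 : ε * (2 * B * κ * N) * (64 * κ) = B * (128 * κ ^ 2 * ε * N) := by ring
    have h10 : B * (128 * κ ^ 2 * ε * N) ≤ B * s := mul_le_mul_of_nonneg_left hi (by linarith)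
    linarith
  have h7 : 200 ≤ B * s / κ := by
    rw [le_div_iff₀ hκ0]
    nlinarith
  have e2 : B * s / (64 * κ) = B * s / κ / 64 := by
    field_simp
  have e3 : B * s / (32 * κ) = B * s / κ / 32 := by
    field_simp
  rw [e2] at h6
  rw [e3]
  have h8 : ε * n * Real.log 2 ≤ B * s / κ / 64 * 0.7 := by
    rcases le_or_gt 0 (ε * n) with h0 | h0
    · exact mul_le_mul h6 (by linarith) h2.le (by linarith)
    · have : ε * n * Real.log 2 ≤ 0 := mul_nonpos_of_nonpos_of_nonneg h0.le h2.le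
      linarith
  linarith

theorem lowerX : ∃ C : ℝ, 0 < C ∧ ∀ k : ℕ, 2 ≤ k → ∃ ε₀ : ℝ, 0 < ε₀ ∧ ∀ ε : ℝ, 0 < ε → ε ≤ ε₀ →
    ∃ n₀ : ℕ, ∀ n ≥ n₀, ∃ F : Fml (Fin n), Width k F ∧
      ∀ w : ℕ, ¬ Sparse F w ((2 : ℝ) ^ (ε * n)) ((Real.log (1 / ε) / (C * k ^ 3 * ε)) ^ (k - 1) * n) := by
  refine ⟨2 ^ 16, by norm_num, ?_⟩
  intro k hk
  obtain ⟨K, rfl⟩ : ∃ K, k = K + 1 := ⟨k - 1, by omega⟩
  have hK : 1 ≤ K := by omega
  obtain ⟨κ, hκ⟩ : ∃ κ : ℝ, κ = (K : ℝ) + 1 := ⟨_, rfl⟩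
  have hκc : ((K + 1 : ℕ) : ℝ) = κ := by
    rw [hκ]
    push_cast
    rfl
  have hK1 : (1 : ℝ) ≤ K := by exact_mod_cast hK
  have hκ2 : 2 ≤ κ := by
    rw [hκ]
    linarith
  have hκ0 : 0 < κ := by linarith
  rw [hκc]
  obtain ⟨s₀, hs₀, hpow⟩ := exists_pow_le K
  have hs₀0 : 0 < s₀ := by omega
  have hs₀r : (0 : ℝ) < s₀ := by exact_mod_cast hs₀0
  refine ⟨min 1 (s₀ / (128 * κ ^ 2 * 2 ^ ((K + 5) * s₀))), lt_min one_pos (by positivity), ?_⟩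
  intro ε hε hε0
  have hε1 : ε ≤ 1 := hε0.trans (min_le_left _ _)
  have hε2 := hε0.trans (min_le_right _ _)
  obtain ⟨y, hy⟩ : ∃ y : ℝ, y = 128 * κ ^ 2 * ε := ⟨_, rfl⟩
  have hy0 : 0 < y := by
    rw [hy]
    positivity
  have hyd : y * 2 ^ ((K + 5) * s₀) ≤ ((((K + 5) * s₀) / (K + 5) : ℕ) : ℝ) := by
    rw [Nat.mul_div_cancel_left _ (by omega), hy]
    rw [le_div_iff₀ (by positivity)] at hε2
    linarith
  obtain ⟨d, hd0, hd1, hd2⟩ := exists_d hy0 hyd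
  obtain ⟨s, hs⟩ : ∃ s : ℕ, s = d / (K + 5) := ⟨_, rfl⟩
  rw [← hs] at hd1 hd2
  have hss : s₀ ≤ s := by
    rw [hs]
    exact (Nat.le_div_iff_mul_le (by omega)).2 (by rw [mul_comm]; exact hd0)
  have hsd : (K + 5) * s ≤ d := by
    rw [hs]
    exact Nat.mul_div_le d (K + 5)
  have hds : d < (K + 5) * (s + 1) := by
    rw [hs]
    have h1 := Nat.lt_mul_div_succ d (show 0 < K + 5 by omega)
    exact h1
  obtain ⟨r, hr⟩ : ∃ r : ℕ, r = d - s := ⟨_, rfl⟩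
  have hsr : s + r = d := by
    have h1 : s ≤ (K + 5) * s := Nat.le_mul_of_pos_left s (by omega)
    omega
  have hrs : (K + 4) * s ≤ r := by
    have h1 : (K + 5) * s = (K + 4) * s + s := by ring
    omega
  obtain ⟨N, hN⟩ : ∃ N : ℕ, N = 2 ^ (s + r) := ⟨_, rfl⟩
  have hN0 : 0 < N := by
    rw [hN]
    positivity
  have hNr : (0 : ℝ) < N := by exact_mod_cast hN0
  have hNd : (N : ℝ) = 2 ^ d := by
    rw [hN, hsr]
    push_cast
    rfl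
  have hs200 : 200 * (K + 1) ≤ s := hs₀.trans hss
  have hsκ : 200 * κ ≤ s := by
    rw [hκ]
    exact_mod_cast hs200
  have hi : 128 * κ ^ 2 * ε * N ≤ s := by
    rw [← hy, hNd]
    exact hd1
  have hii : (s : ℝ) < 256 * κ ^ 2 * ε * N := by
    have e : 256 * κ ^ 2 * ε * N = y * 2 ^ (d + 1) := by
      rw [hy, hNd, pow_succ]
      ring
    rw [e]
    exact hd2
  have hkN : 0 < (K + 1) * N := Nat.mul_pos (by omega) hN0
  refine ⟨4 * (K + 2) * ((K + 1) * N), fun n hn => ?_⟩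
  obtain ⟨B, hB⟩ : ∃ B : ℕ, B = n / ((K + 1) * N) := ⟨_, rfl⟩
  have hB1 : 4 * (K + 2) ≤ B := by
    rw [hB]
    exact (Nat.le_div_iff_mul_le hkN).2 hn
  have hBn : B * ((K + 1) * N) ≤ n := by
    rw [hB]
    exact Nat.div_mul_le_self n _
  have hnB : n < (B + 1) * ((K + 1) * N) := by
    rw [hB]
    have := Nat.lt_div_mul_add (a := n) hkN
    calc n < n / ((K + 1) * N) * ((K + 1) * N) + (K + 1) * N := this
      _ = (n / ((K + 1) * N) + 1) * ((K + 1) * N) := by ring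
  have hn2 : (n : ℝ) ≤ 2 * B * κ * N := by
    have h1 : n ≤ 2 * B * (K + 1) * N := by
      have h2 : (B + 1) * ((K + 1) * N) ≤ (2 * B) * ((K + 1) * N) :=
        Nat.mul_le_mul_right _ (by omega)
      calc n ≤ (2 * B) * ((K + 1) * N) := by omega
        _ = 2 * B * (K + 1) * N := by ring
    rw [hκ]
    exact_mod_cast h1
  have hBr : (1 : ℝ) ≤ B := by
    have : 1 ≤ B := by omega
    exact_mod_cast this
  have hBn' : B * ((K + 1) * 2 ^ (s + r)) ≤ n := by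
    rw [← hN]
    exact hBn
  obtain ⟨v, hv⟩ := exists_injV hBn'
  have hdr : (d : ℝ) ≤ ((K : ℝ) + 5) * (s + 1) := by exact_mod_cast hds.le
  have hlg := Kx_log hκ hκ2 hsκ hε hNd hii hdr
  have hlg0 : 0 ≤ Real.log (1 / ε) := Real.log_nonneg ((one_le_div hε).2 hε1)
  have hK32 : 10 * κ ≤ 32 ^ K := by
    rw [← hκc]
    exact_mod_cast Kx_num hK
  have hL2 := Kx_L hκ0 hK32 (by linarith : (0 : ℝ) < B) hε hNr hii (Nat.cast_nonneg n) hn2 hlg0 hlg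
  rw [← Kx_tot (K := K) hN (by omega)] at hL2
  have hm := Kx_m hκ2 hsκ hBr hε hi hn2
  rw [hκ] at hm
  have hk2 : K + 1 - 1 = K := by omega
  rw [hk2]
  refine ⟨hf v, width_hf v, fun w => ?_⟩
  exact not_sparse hK hs200 (hpow s hss) hrs hB1 hv hm hL2 w

end H4.SX
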